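import Pool.Agent.Helper85.AE.Tup
import Pool.Agent.Helper85.AE.Few
import Pool.Agent.Results.MP_7b7e48_nt.AliquotSums

/-!
# Prime tuples whose shifts are aliquot sums: the asymptotic formula for almost all arguments

Let `s(m) = σ(m) - m` be the sum of the proper divisors of `m`. For every `k` and for almost all `(m_1, ..., m_k)` with
`m_i ≤ N`, the formula of Hardy and Littlewood holds for the number of the primes `p ≤ N` for which
`p + s(m_1), ..., p + s(m_k)` are primes; the same is true if some of the `s(m_i)` are replaced by `m_i - φ(m_i)`, and, more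
generally, for the shifts `u m + v f(m) + w`, with integers `u ≠ 0`, `v`, `w` and a positive multiplicative function `f` of
moderate growth with `f(p) = p + c`, `c ≠ 0`, for all large primes `p`.

The asymptotic formula for almost all integer shifts (Lavrik) says nothing on these shifts: the values `s(m)` can be
concentrated on a sparse set. (A set of `N^(1 - δ)` integers is known to have few preimages under `s` only for `δ ≥ 1 / 2`.)

Proof: the values at almost all `m` have nearly minimal additive energy (`Helper85/AE`). The one shift estimate for families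
of nearly minimal energy and the passage to tuples are from the starting files (`TH935/LF`, `N469/PT`, `W93`).
-/

set_option autoImplicit false

namespace Pool.Agent.Results.MP_e87c7d_nt.AliquotShifts

open Finset
open Pool.Agent.W93.TD (HLs)

/-- A positive multiplicative function with `f m ≤ m (1 + log m)^C` and `f p = p + c` for all large primes `p`. -/
structure Moderate (f : ℕ → ℕ) (c : ℤ) : Prop where
  mul : ∀ m n : ℕ, Nat.Coprime m n → f (m * n) = f m * f n
  pos : ∀ m : ℕ, 1 ≤ m → 1 ≤ f m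
  growth : ∃ C : ℕ, ∀ m : ℕ, 1 ≤ m → (f m : ℝ) ≤ m * (1 + Real.log m) ^ C
  prime : ∃ P : ℕ, ∀ p : ℕ, P ≤ p → p.Prime → (f p : ℤ) = p + c

/-- The sum of the proper divisors. -/
def aliquot (m : ℕ) : ℕ := ∑ d ∈ m.properDivisors, d

open Classical in
/-- The number of the vectors `(m 1, ..., m k)` with `1 ≤ m i ≤ N` and the property `E`. -/
noncomputable def num (k N : ℕ) (E : (Fin k → ℕ) → Prop) : ℝ :=
  (((Fintype.piFinset fun _ : Fin k => Icc 1 N).filter E).card : ℝ)

/-- The number of the residue classes modulo `p` occupied by `0, -a 1, ..., -a k`. -/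
def nu {k : ℕ} (a : Fin k → ℕ) (p : ℕ) : ℕ := ((range p).filter (fun r => p ∣ r ∨ ∃ i, p ∣ r + a i)).card

/-- The partial product over the primes `p ≤ z` of the singular series of the tuple `(0, a 1, ..., a k)`. -/
noncomputable def sing {k : ℕ} (a : Fin k → ℕ) (z : ℕ) : ℝ :=
  ∏ p ∈ (Icc 1 z).filter Nat.Prime, (1 - (nu a p : ℝ) / p) / (1 - 1 / (p : ℝ)) ^ (k + 1)

/-- There is no local obstruction to infinitely many prime tuples `(n, n + a 1, ..., n + a k)`. -/
def Admissible {k : ℕ} (a : Fin k → ℕ) : Prop := ∀ p : ℕ, p.Prime → ∃ r : ℕ, ¬ p ∣ r ∧ ∀ i, ¬ p ∣ r + a i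

/-- The primes `p ≤ N` such that all `p + a i` are primes. -/
def primes {k : ℕ} (a : Fin k → ℕ) (N : ℕ) : Finset ℕ := (Icc 1 N).filter (fun p => p.Prime ∧ ∀ i, (p + a i).Prime)

/-- The formula of Hardy and Littlewood for the shifts `a 1, ..., a k` and the primes up to `N`: the
singular series converges, its sum `S` predicts the weighted number of prime tuples with an error of
at most `N / log ^ U N`, and, if the shifts are admissible, `S` is positive and `S N / log ^ (k + 1) N`
predicts the number of prime tuples with a relative error of at most `ε`. -/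
def Holds {k : ℕ} (ε : ℝ) (U N : ℕ) (a : Fin k → ℕ) : Prop :=
  ∃ S : ℝ, Filter.Tendsto (fun z => sing a z) Filter.atTop (nhds S) ∧
    |∑ p ∈ primes a N, Real.log p * ∏ i, Real.log ((p : ℝ) + a i) - S * N| ≤ (N : ℝ) / Real.log N ^ U ∧
    (Admissible a → 0 < S ∧
      |((primes a N).card : ℝ) - S * (N / Real.log N ^ (k + 1))| ≤ ε * (S * (N / Real.log N ^ (k + 1))))

lemma holds_of {k : ℕ} {ε : ℝ} {U N : ℕ} {a : Fin k → ℕ} (h : HLs ε U N a) : Holds ε U N a := by
  obtain ⟨S, h1, h2, h3⟩ := h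
  have e1 : ∀ p, Pool.Agent.H373R2.T7.nuP (fun i => (a i : ℤ)) p = nu a p := by
    intro p
    unfold Pool.Agent.H373R2.T7.nuP nu
    congr 1
    apply filter_congr
    intro r _
    dsimp only
    norm_cast
  have e2 : ∀ z, Pool.Agent.H373R2.T7.singZ (fun i => (a i : ℤ)) z = sing a z := by
    intro z
    unfold Pool.Agent.H373R2.T7.singZ sing
    apply prod_congr rfl
    intro p _
    rw [e1]
  refine ⟨S, ?_, ?_, fun hA => ?_⟩
  · simpa only [e2] using h1
  · rw [Pool.Agent.H560R3.GB.tupleCount_nat] at h2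
    exact h2
  · exact h3 (fun p hp => by
      obtain ⟨r, b1, b2⟩ := hA p hp
      exact ⟨r, by exact_mod_cast b1, fun i => by
        have := b2 i
        dsimp only
        exact_mod_cast this⟩)

open Classical in
/-- one coordinate in a small set -/
lemma one_coord {k N : ℕ} (i : Fin k) (T : Finset ℕ) :
    (((Fintype.piFinset fun _ : Fin k => Icc 1 N).filter (fun m => m i ∈ T)).card : ℝ) ≤ T.card * (N : ℝ) ^ (k - 1) := by
  have h1 : (Fintype.piFinset fun _ : Fin k => Icc 1 N).filter (fun m => m i ∈ T) ⊆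
      Fintype.piFinset (Function.update (fun _ : Fin k => Icc 1 N) i T) := by
    intro m hm
    rw [mem_filter, Fintype.mem_piFinset] at hm
    rw [Fintype.mem_piFinset]
    intro j
    by_cases hj : j = i
    · subst hj
      rw [Function.update_self]
      exact hm.2
    · rw [Function.update_of_ne hj]
      exact hm.1 j
  have h2 : (Fintype.piFinset (Function.update (fun _ : Fin k => Icc 1 N) i T)).card = T.card * N ^ (k - 1) := by
    rw [Fintype.card_piFinset, ← mul_prod_erase univ _ (mem_univ i), Function.update_self]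
    congr 1
    rw [prod_congr rfl (g := fun _ => N) (fun j hj => by
      rw [Function.update_of_ne (ne_of_mem_erase hj), Nat.card_Icc, Nat.add_sub_cancel]), prod_const,
      card_erase_of_mem (mem_univ i), card_univ, Fintype.card_fin]
  have h3 := card_le_card h1
  rw [h2] at h3
  exact_mod_cast h3

theorem general (k : ℕ) (hk : 1 ≤ k) (f : Fin k → ℕ → ℕ) (c u v w : Fin k → ℤ) (hf : ∀ i, Moderate (f i) (c i))
    (hc : ∀ i, c i ≠ 0) (hu : ∀ i, u i ≠ 0) (B C U : ℕ) (ε : ℝ) (hε : 0 < ε) :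
    ∃ N₀ : ℕ, ∀ N : ℕ, N₀ ≤ N →
      num k N (fun m => (∀ i, (m i : ℝ) / Real.log (m i) ^ C ≤ ((u i * m i + v i * f i (m i) + w i : ℤ) : ℝ) ∧
        u i * m i + v i * f i (m i) + w i ≤ B * N) ∧
        ¬ Holds ε U N (fun i => (u i * m i + v i * f i (m i) + w i).toNat)) ≤ ε * (N : ℝ) ^ k := by
  classical
  have hk0 : (0 : ℝ) < k := by exact_mod_cast hk
  choose h C₁ x₀ hh hfam using fun i => Pool.Agent.Helper85.AE.family (f := f i) (c := c i)
    ⟨(hf i).mul, (hf i).pos, (hf i).growth, (hf i).prime⟩ (hc i) (u i) (v i) (w i) (hu i) C (ε / (4 * k)) (by positivity)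
  obtain ⟨N₀, htup⟩ := Pool.Agent.Helper85.AE.set_tuples k hk h (fun i => C₁ i + 2 * h i) B (U + 1) ε hε
  obtain ⟨n1, hn1⟩ := Pool.Agent.Helper85.AE.ev_log (4 + 4 * k / ε)
  obtain ⟨n2, hn2⟩ := exists_nat_gt (4 * k / ε)
  refine ⟨(∑ i, x₀ i) + N₀ + n1 + n2 + 3, fun N hN => ?_⟩
  have hx₀ : ∀ i, x₀ i ≤ N := fun i =>
    (single_le_sum (f := x₀) (fun _ _ => Nat.zero_le _) (mem_univ i)).trans (by omega)
  choose S hSx hSE0 hS3 hSen using fun i => hfam i N (hx₀ i)
  choose E hE hSE using hSE0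
  have hN3 : (3 : ℝ) ≤ N := by exact_mod_cast (by omega : 3 ≤ N)
  have hN0 : (0 : ℝ) < N := by linarith
  obtain ⟨l, hl⟩ : ∃ l, l = Real.log N := ⟨_, rfl⟩
  have hl1 : 4 + 4 * k / ε ≤ l := by rw [hl]; exact hn1 N (by omega)
  have hε4 : 0 < 4 * k / ε := by positivity
  have hl4 : 4 ≤ l := by linarith
  have hlε : 4 * k ≤ ε * l := by
    have : 4 * k / ε ≤ l := by linarith
    rw [div_le_iff₀ hε] at this
    linarith
  obtain ⟨G, hG⟩ : ∃ G : Fin k → ℕ → ℤ, G = fun i (m : ℕ) => u i * m + v i * f i m + w i := ⟨_, rfl⟩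
  have hGeq : ∀ (i : Fin k) (m : ℕ), G i m = u i * m + v i * f i m + w i := fun i m => by rw [hG]
  obtain ⟨Q, hQ⟩ : ∃ Q : (Fin k → ℕ) → Prop, Q = fun m => (∀ i, (m i : ℝ) / Real.log (m i) ^ C ≤ ((G i (m i) : ℤ) : ℝ) ∧
    G i (m i) ≤ B * N) ∧ ¬ Holds ε U N (fun i => (G i (m i)).toNat) := ⟨_, rfl⟩
  suffices hsuf : (((Fintype.piFinset fun _ : Fin k => Icc 1 N).filter Q).card : ℝ) ≤ ε * (N : ℝ) ^ k by
    rw [hQ, hG] at hsuf
    unfold num
    convert hsuf
  obtain ⟨S₁, hS₁⟩ : ∃ S₁ : Fin k → Finset ℕ, S₁ = fun i => (S i).filter (fun m : ℕ => 1 < m ∧ (m : ℝ) / Real.log m ^ C ≤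
    ((G i m : ℤ) : ℝ) ∧ G i m ≤ B * N) := ⟨_, rfl⟩
  have hS₁m : ∀ i m, m ∈ S₁ i → m ∈ S i ∧ 1 < m ∧ (m : ℝ) / Real.log m ^ C ≤ ((G i m : ℤ) : ℝ) ∧ G i m ≤ B * N := by
    intro i m hm
    rw [hS₁] at hm
    exact mem_filter.1 hm
  have hpos : ∀ (i : Fin k) (m : ℕ), 1 < m → (m : ℝ) / Real.log m ^ C ≤ ((G i m : ℤ) : ℝ) → 0 < G i m := by
    intro i m hm h2
    have h1 : (1 : ℝ) < (m : ℝ) := by exact_mod_cast hm
    have h3 := Real.log_pos h1
    have : (0 : ℝ) < ((G i m : ℤ) : ℝ) := lt_of_lt_of_le (by positivity) h2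
    exact_mod_cast this
  obtain ⟨X, hX⟩ : ∃ X, X = (Fintype.piFinset S₁).filter (fun m => ¬ HLs ε (U + 1) N (fun i => (G i (m i)).toNat)) := ⟨_, rfl⟩
  have hsub : (Fintype.piFinset fun _ : Fin k => Icc 1 N).filter Q ⊆
      (univ.biUnion fun i => (Fintype.piFinset fun _ : Fin k => Icc 1 N).filter (fun m => m i ∈ E i ∪ {1})) ∪ X := by
    intro m hm
    rw [mem_filter, hQ] at hm
    obtain ⟨hm1, hm2, hm3⟩ := hm
    have hm1' := hm1
    rw [Fintype.mem_piFinset] at hm1'
    rw [mem_union, mem_biUnion]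
    by_cases hex : ∃ i, m i ∈ E i ∪ {1}
    · obtain ⟨i, hi⟩ := hex
      left
      exact ⟨i, mem_univ i, mem_filter.2 ⟨hm1, hi⟩⟩
    · right
      push Not at hex
      rw [hX, mem_filter, Fintype.mem_piFinset]
      refine ⟨fun i => ?_, ?_⟩
      · have h1 := hex i
        rw [mem_union, mem_singleton] at h1
        push Not at h1
        have h2 := mem_Icc.1 (hm1' i)
        have h3 : 1 < m i := by omega
        have hlogm : 0 < Real.log (m i) := Real.log_pos (by exact_mod_cast h3)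
        rw [hS₁, mem_filter]
        refine ⟨?_, h3, hm2 i⟩
        by_contra hmS
        apply h1.1
        apply hSE i (m i) (hm1' i) hmS
        have h5 : (m i : ℝ) / Real.log N ^ C ≤ (m i : ℝ) / Real.log (m i) ^ C := by
          apply div_le_div_of_nonneg_left (Nat.cast_nonneg _) (by positivity)
          apply pow_le_pow_left₀ hlogm.le
          apply Real.log_le_log (by exact_mod_cast (by omega : 0 < m i))
          exact_mod_cast h2.2
        have h6 := (hm2 i).1
        rw [hG] at h6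
        exact (h5.trans h6).trans (le_abs_self _)
      · intro hH
        apply hm3
        obtain ⟨S', a1, a2, a3⟩ := holds_of hH
        refine ⟨S', a1, a2.trans ?_, a3⟩
        apply div_le_div_of_nonneg_left hN0.le (by rw [← hl]; positivity)
        rw [← hl]
        exact pow_le_pow_right₀ (by linarith) (by omega)
  have hNk : (N : ℝ) ^ k = N * (N : ℝ) ^ (k - 1) := by
    rw [← pow_succ']
    congr 1
    omega
  have hNk1 : (0 : ℝ) ≤ (N : ℝ) ^ (k - 1) := by positivity
  have hNk0 : (0 : ℝ) ≤ (N : ℝ) ^ k := by positivity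
  have hone : (1 : ℝ) ≤ ε / (4 * k) * N := by
    have : 4 * k / ε ≤ N := hn2.le.trans (by exact_mod_cast (by omega : n2 ≤ N))
    rw [div_le_iff₀ hε] at this
    rw [div_mul_eq_mul_div, le_div_iff₀ (by positivity)]
    linarith
  have hfirst : ((univ.biUnion fun i => (Fintype.piFinset fun _ : Fin k => Icc 1 N).filter
      (fun m => m i ∈ E i ∪ {1})).card : ℝ) ≤ ε / 2 * (N : ℝ) ^ k := by
    have h1 : ((univ.biUnion fun i => (Fintype.piFinset fun _ : Fin k => Icc 1 N).filter
      (fun m => m i ∈ E i ∪ {1})).card : ℝ) ≤ ∑ i, (((Fintype.piFinset fun _ : Fin k => Icc 1 N).filter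
      (fun m => m i ∈ E i ∪ {1})).card : ℝ) := by exact_mod_cast card_biUnion_le
    refine h1.trans ?_
    have h2 : ∀ i, (((Fintype.piFinset fun _ : Fin k => Icc 1 N).filter (fun m => m i ∈ E i ∪ {1})).card : ℝ) ≤
        2 * (ε / (4 * k)) * (N : ℝ) ^ k := by
      intro i
      refine (one_coord i (E i ∪ {1})).trans ?_
      have h3 : ((E i ∪ {1}).card : ℝ) ≤ (E i).card + 1 := by
        have := card_union_le (E i) {1}
        rw [card_singleton] at this
        exact_mod_cast this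
      have h4 := hE i
      rw [hNk, ← mul_assoc]
      apply mul_le_mul_of_nonneg_right _ hNk1
      linarith
    calc ∑ i, (((Fintype.piFinset fun _ : Fin k => Icc 1 N).filter (fun m => m i ∈ E i ∪ {1})).card : ℝ) ≤
        ∑ _i : Fin k, 2 * (ε / (4 * k)) * (N : ℝ) ^ k := sum_le_sum fun i _ => h2 i
      _ = ε / 2 * (N : ℝ) ^ k := by
          rw [sum_const, card_univ, Fintype.card_fin, nsmul_eq_mul]
          field_simp
          ring
  have hSc : ∀ i, ((S₁ i).card : ℝ) ≤ N := by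
    intro i
    have h1 : S₁ i ⊆ Icc 1 N := fun m hm => hSx i (hS₁m i m hm).1
    have := card_le_card h1
    rw [Nat.card_Icc, Nat.add_sub_cancel] at this
    exact_mod_cast this
  have hsecond : (X.card : ℝ) ≤ ε / 4 * (N : ℝ) ^ k := by
    by_cases hsm : ∃ i, ((S₁ i).card : ℝ) ≤ ε / (4 * k) * N
    · obtain ⟨i, hi⟩ := hsm
      have h1 : X ⊆ (Fintype.piFinset fun _ : Fin k => Icc 1 N).filter (fun m => m i ∈ S₁ i) := by
        intro m hm
        rw [hX, mem_filter, Fintype.mem_piFinset] at hm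
        rw [mem_filter, Fintype.mem_piFinset]
        exact ⟨fun j => hSx j (hS₁m j _ (hm.1 j)).1, hm.1 i⟩
      have h2 : (X.card : ℝ) ≤ (S₁ i).card * (N : ℝ) ^ (k - 1) :=
        le_trans (by exact_mod_cast card_le_card h1) (one_coord i (S₁ i))
      have h3 : ε / (4 * k) * N ≤ ε / 4 * N := by
        apply mul_le_mul_of_nonneg_right _ hN0.le
        apply div_le_div_of_nonneg_left hε.le (by norm_num)
        have : (1 : ℝ) ≤ k := by exact_mod_cast hk
        linarith
      rw [hNk, ← mul_assoc]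
      refine h2.trans (mul_le_mul_of_nonneg_right (hi.trans h3) hNk1)
    · push Not at hsm
      have key := htup N (by omega) S₁ (fun i m => (G i m).toNat) (by
        intro i m hm
        obtain ⟨_, a1, a2, a3⟩ := hS₁m i m hm
        have a4 := hpos i m a1 a2
        zify
        rw [Int.toNat_of_nonneg a4.le]
        exact a3) (by
        intro i
        have h1 : Pool.Agent.TH935.GF.En (h i) (fun m : {m // m ∈ S₁ i} => (((G i m.1).toNat : ℕ) : ℤ)) ≤
            Pool.Agent.TH935.GF.En (h i) (fun m : {m // m ∈ S i} => u i * (m.1 : ℤ) + v i * f i m.1 + w i) := by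
          apply Pool.Agent.Helper85.AE.En_mono (h i) _ _
            (fun m : {m // m ∈ S₁ i} => (⟨m.1, (hS₁m i m.1 m.2).1⟩ : {m // m ∈ S i}))
          · intro a b hab
            have h7 : a.1 = b.1 := by
              have := congrArg (fun t : {m // m ∈ S i} => t.1) hab
              exact this
            exact Subtype.ext h7
          · intro m
            obtain ⟨_, a1, a2, a3⟩ := hS₁m i m.1 m.2
            have a4 := hpos i m.1 a1 a2
            rw [Int.toNat_of_nonneg a4.le]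
            exact (hGeq i m.1).symm
        have h2 : (Pool.Agent.TH935.GF.En (h i) (fun m : {m // m ∈ S₁ i} => (((G i m.1).toNat : ℕ) : ℤ)) : ℝ) * N ≤
            Real.log N ^ C₁ i * (N : ℝ) ^ (2 * h i) :=
          le_trans (mul_le_mul_of_nonneg_right (by exact_mod_cast h1) hN0.le) (hSen i)
        refine h2.trans ?_
        rw [← hl]
        have h3 : (N : ℝ) ≤ l * (S₁ i).card := by
          have h4 : l * (ε / (4 * k) * N) ≤ l * (S₁ i).card := mul_le_mul_of_nonneg_left (hsm i).le (by linarith)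
          have h5 : 4 * k * (N : ℝ) ≤ ε * l * N := mul_le_mul_of_nonneg_right hlε hN0.le
          have h6 : l * (ε / (4 * k) * N) = ε * l * N / (4 * k) := by ring
          rw [h6] at h4
          refine le_trans ?_ h4
          rw [le_div_iff₀ (by positivity)]
          linarith
        calc l ^ C₁ i * (N : ℝ) ^ (2 * h i) ≤ l ^ C₁ i * (l * (S₁ i).card) ^ (2 * h i) := by gcongr
          _ = l ^ (C₁ i + 2 * h i) * ((S₁ i).card : ℝ) ^ (2 * h i) := by
              rw [mul_pow]
              ring)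
      have h1 : (X.card : ℝ) ≤ (∏ i, ((S₁ i).card : ℝ)) / Real.log N ^ (U + 1) := by
        refine le_trans (le_of_eq ?_) key
        rw [hX]
      have h2 : ∏ i, ((S₁ i).card : ℝ) ≤ (N : ℝ) ^ k := by
        calc ∏ i, ((S₁ i).card : ℝ) ≤ ∏ _i : Fin k, (N : ℝ) := prod_le_prod (fun i _ => Nat.cast_nonneg _) (fun i _ => hSc i)
          _ = (N : ℝ) ^ k := by rw [prod_const, card_univ, Fintype.card_fin]
      refine h1.trans ?_
      rw [← hl, div_le_iff₀ (by positivity)]
      have h9 : l ≤ l ^ (U + 1) := by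
        calc l = l ^ 1 := (pow_one l).symm
          _ ≤ _ := pow_le_pow_right₀ (by linarith) (by omega)
      have h10 : 1 ≤ ε / 4 * l := by
        have : (1 : ℝ) ≤ k := by exact_mod_cast hk
        linarith
      calc ∏ i, ((S₁ i).card : ℝ) ≤ 1 * (N : ℝ) ^ k := by rw [one_mul]; exact h2
        _ ≤ (ε / 4 * l) * (N : ℝ) ^ k := mul_le_mul_of_nonneg_right h10 hNk0
        _ = ε / 4 * (N : ℝ) ^ k * l := by ring
        _ ≤ ε / 4 * (N : ℝ) ^ k * l ^ (U + 1) := mul_le_mul_of_nonneg_left h9 (by positivity)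
  have hcard : (((Fintype.piFinset fun _ : Fin k => Icc 1 N).filter Q).card : ℝ) ≤
      ((univ.biUnion fun i => (Fintype.piFinset fun _ : Fin k => Icc 1 N).filter
      (fun m => m i ∈ E i ∪ {1})).card : ℝ) + X.card := by
    exact_mod_cast (card_le_card hsub).trans (card_union_le _ _)
  have h9 : 0 ≤ ε * (N : ℝ) ^ k := by positivity
  linarith

theorem moderate_totient : Moderate Nat.totient (-1) :=
  ⟨Pool.Agent.Helper85.AE.mod_totient.mul, Pool.Agent.Helper85.AE.mod_totient.pos,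
    Pool.Agent.Helper85.AE.mod_totient.growth, Pool.Agent.Helper85.AE.mod_totient.prime⟩

theorem moderate_sigma : Moderate (fun m => ∑ d ∈ m.divisors, d) 1 :=
  ⟨Pool.Agent.Helper85.AE.mod_sigma.mul, Pool.Agent.Helper85.AE.mod_sigma.pos,
    Pool.Agent.Helper85.AE.mod_sigma.growth, Pool.Agent.Helper85.AE.mod_sigma.prime⟩

lemma holds_mono {k : ℕ} {ε ε' : ℝ} (h : ε' ≤ ε) {U N : ℕ} {a : Fin k → ℕ} (H : Holds ε' U N a) : Holds ε U N a := by
  obtain ⟨S, a1, a2, a3⟩ := H
  refine ⟨S, a1, a2, fun hA => ?_⟩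
  obtain ⟨b1, b2⟩ := a3 hA
  refine ⟨b1, b2.trans (mul_le_mul_of_nonneg_right h ?_)⟩
  have : 0 ≤ Real.log (N : ℝ) := Real.log_natCast_nonneg N
  positivity

lemma sum_divisors (m : ℕ) : ∑ d ∈ m.divisors, d = aliquot m + m := by
  unfold aliquot
  exact Nat.sum_divisors_eq_sum_properDivisors_add_self

/-- the arguments without small prime factors, with many divisors, or small -/
lemma rare (ε : ℝ) (hε : 0 < ε) : ∃ B N₀ : ℕ, ∀ N : ℕ, N₀ ≤ N → ∃ T : Finset ℕ, (T.card : ℝ) ≤ ε * N ∧
    ∀ m ∈ Icc 1 N, m ∉ T → (m : ℝ) / Real.log m ^ 1 ≤ aliquot m ∧ (m : ℝ) / Real.log m ^ 1 ≤ (m - Nat.totient m : ℕ) ∧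
      aliquot m ≤ B * N ∧ m - Nat.totient m ≤ B * N := by
  classical
  obtain ⟨B', hB'⟩ := exists_nat_gt (3 / ε)
  have hB'0 : 0 < B' := by
    have : (0 : ℝ) < B' := lt_trans (by positivity) hB'
    exact_mod_cast this
  obtain ⟨z, n0, hz⟩ := Pool.Agent.Helper85.AE.few_rough (ε / 3) (by positivity)
  obtain ⟨n3, hn3⟩ := Pool.Agent.Helper85.AE.ev_log (z + 1)
  obtain ⟨n4, hn4⟩ := exists_nat_gt (3 * (n3 + 2 : ℝ) / ε)
  refine ⟨B', n0 + n3 + n4 + 1, fun N hN => ?_⟩
  have hN0 : (0 : ℝ) < N := by exact_mod_cast (by omega : 0 < N)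
  have g3 := hz N (by omega)
  have g4 := Pool.Agent.Helper85.AE.sigma_rarely N B' (by exact_mod_cast hB'0)
  have g4' : (N : ℝ) / B' ≤ ε / 3 * N := by
    rw [div_le_iff₀ (by exact_mod_cast hB'0)]
    have h6 : 3 < B' * ε := by
      rw [div_lt_iff₀ hε] at hB'
      exact hB'
    nlinarith
  have g5 : (n3 + 2 : ℝ) ≤ ε / 3 * N := by
    have h5 : 3 * (n3 + 2 : ℝ) / ε ≤ N := hn4.le.trans (by exact_mod_cast (by omega : n4 ≤ N))
    rw [div_le_iff₀ hε] at h5
    linarith
  refine ⟨((Icc 1 N).filter (fun m => ∀ p : ℕ, p.Prime → p ≤ z → ¬ p ∣ m) ∪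
    (Icc 1 N).filter (fun m => (B' : ℝ) * N < ((∑ d ∈ m.divisors, d : ℕ) : ℝ))) ∪ Icc 1 (n3 + 2), ?_, ?_⟩
  · have hc := (card_union_le ((Icc 1 N).filter (fun m => ∀ p : ℕ, p.Prime → p ≤ z → ¬ p ∣ m) ∪
      (Icc 1 N).filter (fun m => (B' : ℝ) * N < ((∑ d ∈ m.divisors, d : ℕ) : ℝ))) (Icc 1 (n3 + 2))).trans
      (add_le_add (card_union_le _ _) le_rfl)
    rw [Nat.card_Icc, Nat.add_sub_cancel] at hc
    have hc' : (((((Icc 1 N).filter (fun m => ∀ p : ℕ, p.Prime → p ≤ z → ¬ p ∣ m) ∪
      (Icc 1 N).filter (fun m => (B' : ℝ) * N < ((∑ d ∈ m.divisors, d : ℕ) : ℝ))) ∪ Icc 1 (n3 + 2)).card : ℕ) : ℝ) ≤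
      (((Icc 1 N).filter (fun m => ∀ p : ℕ, p.Prime → p ≤ z → ¬ p ∣ m)).card +
      ((Icc 1 N).filter (fun m => (B' : ℝ) * N < ((∑ d ∈ m.divisors, d : ℕ) : ℝ))).card) + (n3 + 2) := by exact_mod_cast hc
    linarith
  · intro m hm1 hm2
    rw [mem_union, mem_union, mem_filter, mem_filter, mem_Icc (a := 1) (b := n3 + 2)] at hm2
    push Not at hm2
    obtain ⟨⟨c1, c2⟩, c3⟩ := hm2
    have hm3 := mem_Icc.1 hm1
    obtain ⟨p, hp, hpz, hpm⟩ := c1 hm1
    have a3 := c2 hm1
    have c3' := c3 hm3.1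
    have hlogm : (z : ℝ) + 1 ≤ Real.log m := hn3 m (by omega)
    have hm0 : (0 : ℝ) < m := by exact_mod_cast (by omega : 0 < m)
    have hz1 : (0 : ℝ) < z := by exact_mod_cast (lt_of_lt_of_le hp.pos hpz)
    have hmz : (m : ℝ) / Real.log m ^ 1 ≤ m / z := by
      rw [pow_one]
      apply div_le_div_of_nonneg_left hm0.le hz1
      linarith
    have a1 := Pool.Agent.Helper85.AE.aliquot_ge (by omega : 1 ≤ m) hp hpm hpz
    have a2 := Pool.Agent.Helper85.AE.cototient_ge (by omega : 1 ≤ m) hp hpm hpz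
    have a3' : ∑ d ∈ m.divisors, d ≤ B' * N := by exact_mod_cast a3
    have htot := Nat.totient_le m
    have hs := sum_divisors m
    have h7 : N ≤ B' * N := Nat.le_mul_of_pos_left N hB'0
    refine ⟨hmz.trans (a1.trans (le_of_eq ?_)), hmz.trans (a2.trans (le_of_eq ?_)), by omega, by omega⟩
    · rw [hs]
      push_cast
      ring
    · push_cast [Nat.cast_sub htot]
      ring

theorem both (k : ℕ) (hk : 1 ≤ k) (U : ℕ) (ε : ℝ) (hε : 0 < ε) : ∃ N₀ : ℕ, ∀ N : ℕ, N₀ ≤ N →
    num k N (fun m => ¬ ∀ a : Fin k → ℕ, (∀ i, a i = aliquot (m i) ∨ a i = m i - Nat.totient (m i)) → Holds ε U N a) ≤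
      ε * (N : ℝ) ^ k := by
  classical
  have hk0 : (0 : ℝ) < k := by exact_mod_cast hk
  obtain ⟨B, n1, hT⟩ := rare (ε / (2 * k)) (by positivity)
  obtain ⟨δ, hδ⟩ : ∃ δ : ℝ, δ = ε / (2 * 2 ^ k) := ⟨_, rfl⟩
  have hδ0 : 0 < δ := by rw [hδ]; positivity
  have hδε : δ ≤ ε := by
    rw [hδ]
    apply div_le_self hε.le
    have : (1 : ℝ) ≤ 2 ^ k := one_le_pow₀ (by norm_num)
    linarith
  choose n2 h2 using fun J : Fin k → Bool => general k hk
    (fun i => if J i then (fun m => ∑ d ∈ m.divisors, d) else Nat.totient) (fun i => if J i then 1 else -1)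
    (fun i => if J i then -1 else 1) (fun i => if J i then 1 else -1) (fun _ => 0)
    (fun i => by
      split_ifs
      · exact moderate_sigma
      · exact moderate_totient) (fun i => by split_ifs <;> norm_num) (fun i => by split_ifs <;> norm_num)
    B 1 U δ hδ0
  refine ⟨n1 + ∑ J, n2 J, fun N hN => ?_⟩
  have hn2 : ∀ J, n2 J ≤ N := fun J => (single_le_sum (f := n2) (fun _ _ => Nat.zero_le _) (mem_univ J)).trans (by omega)
  obtain ⟨T, hT1, hT2⟩ := hT N (by omega)
  obtain ⟨R, hR⟩ : ∃ R : (Fin k → Bool) → (Fin k → ℕ) → Prop, R = fun J m =>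
    (∀ i, (m i : ℝ) / Real.log (m i) ^ 1 ≤ (((if J i then -1 else 1 : ℤ) * m i + (if J i then 1 else -1 : ℤ) *
      ((if J i then (fun m => ∑ d ∈ m.divisors, d) else Nat.totient : ℕ → ℕ) (m i) : ℕ) + 0 : ℤ) : ℝ) ∧
      (if J i then -1 else 1 : ℤ) * m i + (if J i then 1 else -1 : ℤ) *
      ((if J i then (fun m => ∑ d ∈ m.divisors, d) else Nat.totient : ℕ → ℕ) (m i) : ℕ) + 0 ≤ B * N) ∧
    ¬ Holds δ U N (fun i => ((if J i then -1 else 1 : ℤ) * m i + (if J i then 1 else -1 : ℤ) *
      ((if J i then (fun m => ∑ d ∈ m.divisors, d) else Nat.totient : ℕ → ℕ) (m i) : ℕ) + 0).toNat) := ⟨_, rfl⟩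
  have h3 : ∀ J, num k N (R J) ≤ δ * (N : ℝ) ^ k := fun J => by
    rw [hR]
    exact h2 J N (hn2 J)
  unfold num at h3 ⊢
  have hval : ∀ (J : Fin k → Bool) (i : Fin k) (m : ℕ), (if J i then -1 else 1 : ℤ) * m + (if J i then 1 else -1 : ℤ) *
      ((if J i then (fun m => ∑ d ∈ m.divisors, d) else Nat.totient : ℕ → ℕ) m : ℕ) + 0 =
      ((if J i then aliquot m else m - Nat.totient m : ℕ) : ℤ) := by
    intro J i m
    have hs := sum_divisors m
    have htot := Nat.totient_le m
    split_ifs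
    · dsimp only
      rw [hs]
      push_cast
      ring
    · push_cast [Nat.cast_sub htot]
      ring
  have hsub : (Fintype.piFinset fun _ : Fin k => Icc 1 N).filter (fun m => ¬ ∀ a : Fin k → ℕ,
      (∀ i, a i = aliquot (m i) ∨ a i = m i - Nat.totient (m i)) → Holds ε U N a) ⊆
      (univ.biUnion fun i => (Fintype.piFinset fun _ : Fin k => Icc 1 N).filter (fun m => m i ∈ T)) ∪
      (univ.biUnion fun J => (Fintype.piFinset fun _ : Fin k => Icc 1 N).filter (R J)) := by
    intro m hm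
    rw [mem_filter] at hm
    obtain ⟨hm1, hm2⟩ := hm
    have hm1' := hm1
    rw [Fintype.mem_piFinset] at hm1'
    rw [mem_union, mem_biUnion, mem_biUnion]
    by_cases hex : ∃ i, m i ∈ T
    · obtain ⟨i, hi⟩ := hex
      left
      exact ⟨i, mem_univ i, mem_filter.2 ⟨hm1, hi⟩⟩
    · right
      push Not at hex hm2
      obtain ⟨a, ha1, ha2⟩ := hm2
      refine ⟨fun i => decide (a i = aliquot (m i)), mem_univ _, mem_filter.2 ⟨hm1, ?_⟩⟩
      rw [hR]
      have hai : ∀ i, ((if (decide (a i = aliquot (m i))) = true then aliquot (m i) else m i - Nat.totient (m i) : ℕ)) = a i := by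
        intro i
        by_cases h : a i = aliquot (m i)
        · rw [if_pos (by simpa using h), h]
        · rw [if_neg (by simpa using h)]
          exact ((ha1 i).resolve_left h).symm
      have hval2 : ∀ i, (if (decide (a i = aliquot (m i))) = true then -1 else 1 : ℤ) * m i +
          (if (decide (a i = aliquot (m i))) = true then 1 else -1 : ℤ) *
          ((if (decide (a i = aliquot (m i))) = true then (fun m => ∑ d ∈ m.divisors, d) else Nat.totient : ℕ → ℕ) (m i) : ℕ) + 0 =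
          (a i : ℤ) := by
        intro i
        have := hval (fun i => decide (a i = aliquot (m i))) i (m i)
        rw [this, hai i]
      dsimp only
      refine ⟨fun i => ?_, ?_⟩
      · rw [hval2 i]
        obtain ⟨b1, b2, b3, b4⟩ := hT2 (m i) (hm1' i) (hex i)
        rcases ha1 i with h | h
        · rw [h]
          exact ⟨by exact_mod_cast b1, by exact_mod_cast b3⟩
        · rw [h]
          exact ⟨by exact_mod_cast b2, by exact_mod_cast b4⟩
      · have e1 : (fun i => ((if (decide (a i = aliquot (m i))) = true then -1 else 1 : ℤ) * m i +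
          (if (decide (a i = aliquot (m i))) = true then 1 else -1 : ℤ) *
          ((if (decide (a i = aliquot (m i))) = true then (fun m => ∑ d ∈ m.divisors, d) else Nat.totient : ℕ → ℕ) (m i) : ℕ) +
          0).toNat) = a := by
          funext i
          rw [hval2 i, Int.toNat_natCast]
        rw [e1]
        exact fun h => ha2 (holds_mono hδε h)
  have hcard : (((Fintype.piFinset fun _ : Fin k => Icc 1 N).filter (fun m => ¬ ∀ a : Fin k → ℕ,
      (∀ i, a i = aliquot (m i) ∨ a i = m i - Nat.totient (m i)) → Holds ε U N a)).card : ℝ) ≤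
      ∑ i : Fin k, (((Fintype.piFinset fun _ : Fin k => Icc 1 N).filter (fun m => m i ∈ T)).card : ℝ) +
      ∑ J : Fin k → Bool, (((Fintype.piFinset fun _ : Fin k => Icc 1 N).filter (R J)).card : ℝ) := by
    exact_mod_cast (card_le_card hsub).trans ((card_union_le _ _).trans (add_le_add card_biUnion_le card_biUnion_le))
  have hA : ∑ i : Fin k, (((Fintype.piFinset fun _ : Fin k => Icc 1 N).filter (fun m => m i ∈ T)).card : ℝ) ≤
      ε / 2 * (N : ℝ) ^ k := by
    have hNk : (N : ℝ) ^ k = N * (N : ℝ) ^ (k - 1) := by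
      rw [← pow_succ']
      congr 1
      omega
    calc ∑ i : Fin k, (((Fintype.piFinset fun _ : Fin k => Icc 1 N).filter (fun m => m i ∈ T)).card : ℝ) ≤
        ∑ _i : Fin k, (ε / (2 * k) * N) * (N : ℝ) ^ (k - 1) := sum_le_sum fun i _ =>
          (one_coord i T).trans (mul_le_mul_of_nonneg_right hT1 (by positivity))
      _ = ε / 2 * (N : ℝ) ^ k := by
          rw [sum_const, card_univ, Fintype.card_fin, nsmul_eq_mul, hNk]
          field_simp
  have hB : ∑ J : Fin k → Bool, (((Fintype.piFinset fun _ : Fin k => Icc 1 N).filter (R J)).card : ℝ) ≤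
      ε / 2 * (N : ℝ) ^ k := by
    calc ∑ J : Fin k → Bool, (((Fintype.piFinset fun _ : Fin k => Icc 1 N).filter (R J)).card : ℝ) ≤
        ∑ _J : Fin k → Bool, δ * (N : ℝ) ^ k := sum_le_sum fun J _ => by
          refine le_trans (le_of_eq ?_) (h3 J)
          congr
      _ = ε / 2 * (N : ℝ) ^ k := by
          rw [sum_const, card_univ, Fintype.card_fun, Fintype.card_bool, Fintype.card_fin, nsmul_eq_mul, hδ]
          push_cast
          field_simp
  have hfin : (((Fintype.piFinset fun _ : Fin k => Icc 1 N).filter (fun m => ¬ ∀ a : Fin k → ℕ,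
      (∀ i, a i = aliquot (m i) ∨ a i = m i - Nat.totient (m i)) → Holds ε U N a)).card : ℝ) ≤ ε * (N : ℝ) ^ k := by
    linarith
  convert hfin

/-- The formula of Hardy and Littlewood for the number of the primes `p ≤ N` for which `p + a` is prime. -/
def Pairs (ε : ℝ) (N a : ℕ) : Prop :=
  ∃ S : ℝ, Filter.Tendsto (fun z => sing (fun _ : Fin 1 => a) z) Filter.atTop (nhds S) ∧ 0 < S ∧
    |(((Icc 1 N).filter (fun p => p.Prime ∧ (p + a).Prime)).card : ℝ) - S * (N / Real.log N ^ 2)| ≤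
      ε * (S * (N / Real.log N ^ 2))

lemma admissible_one {a : ℕ} (ha : Even a) : Admissible (fun _ : Fin 1 => a) := by
  intro p hp
  rcases hp.eq_two_or_odd' with rfl | hodd
  · refine ⟨1, by norm_num, fun _ => ?_⟩
    obtain ⟨b, hb⟩ := ha
    dsimp only
    omega
  · have h3 : 3 ≤ p := by
      have := hp.two_le
      rcases hodd with ⟨t, ht⟩
      omega
    by_cases h1 : p ∣ 1 + a
    · refine ⟨2, fun h => ?_, fun _ h => ?_⟩
      · have := Nat.le_of_dvd (by norm_num) h
        omega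
      · have h4 : p ∣ 1 := by
          have := Nat.dvd_sub h h1
          have e : (2 + a) - (1 + a) = 1 := by omega
          rwa [e] at this
        have := Nat.le_of_dvd (by norm_num) h4
        omega
    · refine ⟨1, fun h => ?_, fun _ => h1⟩
      have := Nat.le_of_dvd (by norm_num) h
      omega

lemma pairs_of {ε : ℝ} {U N a : ℕ} (ha : Even a) (h : Holds ε U N (fun _ : Fin 1 => a)) : Pairs ε N a := by
  obtain ⟨S, h1, _, h3⟩ := h
  obtain ⟨h4, h5⟩ := h3 (admissible_one ha)
  refine ⟨S, h1, h4, ?_⟩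
  have e : (primes (fun _ : Fin 1 => a) N).card = ((Icc 1 N).filter (fun p => p.Prime ∧ (p + a).Prime)).card := by
    unfold primes
    congr 1
    apply filter_congr
    intro p _
    constructor
    · rintro ⟨b1, b2⟩
      exact ⟨b1, b2 0⟩
    · rintro ⟨b1, b2⟩
      exact ⟨b1, fun _ => b2⟩
  rw [e] at h5
  exact h5

open Classical in
theorem pairs (ε : ℝ) (hε : 0 < ε) : ∃ N₀ : ℕ, ∀ N : ℕ, N₀ ≤ N →
    (((Icc 1 N).filter (fun m => Even m ∧ ¬ (Pairs ε N (aliquot m) ∧ Pairs ε N (m - Nat.totient m)))).card : ℝ) ≤ ε * N := by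
  obtain ⟨n1, h1⟩ := both 1 le_rfl 0 (ε / 2) (by positivity)
  have h2 := Pool.Agent.Results.MP_7b7e48_nt.AliquotSums.both 1 (by norm_num) 0
  rw [Pool.Agent.Results.MP_7b7e48_nt.AliquotSums.almostAll_iff] at h2
  obtain ⟨n2, h3⟩ := h2 (ε / 2) (by positivity)
  refine ⟨n1 + n2, fun N hN => ?_⟩
  have g1 := h1 N (by omega)
  have g2 := h3 N (by omega)
  rw [pow_one] at g1
  obtain ⟨A, hA⟩ : ∃ A : Finset ℕ, A = (Icc 1 N).filter (fun m => ¬ (Even m →
    Even (Pool.Agent.Results.MP_7b7e48_nt.AliquotSums.aliquot m) ∧ Even (m - Nat.totient m) ∧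
      m ≤ 2 * Pool.Agent.Results.MP_7b7e48_nt.AliquotSums.aliquot m ∧ m ≤ 2 * (m - Nat.totient m) ∧
      Pool.Agent.Results.MP_7b7e48_nt.AliquotSums.Formula 1 0
        (Pool.Agent.Results.MP_7b7e48_nt.AliquotSums.aliquot m / 2) ∧
      Pool.Agent.Results.MP_7b7e48_nt.AliquotSums.Formula 1 0 ((m - Nat.totient m) / 2))) := ⟨_, rfl⟩
  have g2' : (A.card : ℝ) ≤ ε / 2 * N := by
    rw [hA]
    convert g2
  unfold num at g1
  obtain ⟨D, hD⟩ : ∃ D : Finset (Fin 1 → ℕ), D = (Fintype.piFinset fun _ : Fin 1 => Icc 1 N).filter (fun m => ¬ ∀ a : Fin 1 → ℕ,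
      (∀ i, a i = aliquot (m i) ∨ a i = m i - Nat.totient (m i)) → Holds (ε / 2) 0 N a) := ⟨_, rfl⟩
  have g1' : (D.card : ℝ) ≤ ε / 2 * N := by
    rw [hD]
    convert g1
  have hsub : (Icc 1 N).filter (fun m => Even m ∧ ¬ (Pairs ε N (aliquot m) ∧ Pairs ε N (m - Nat.totient m))) ⊆
      A ∪ D.image (fun m => m 0) := by
    intro m hm
    rw [mem_filter] at hm
    obtain ⟨hm1, hm2, hm3⟩ := hm
    rw [mem_union]
    by_cases hmA : m ∈ A
    · exact Or.inl hmA
    · right
      rw [hA, mem_filter] at hmA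
      obtain ⟨e1, e2, -⟩ := (not_not.1 (fun hcon => hmA ⟨hm1, hcon⟩)) hm2
      rw [mem_image]
      refine ⟨fun _ => m, ?_, rfl⟩
      rw [hD, mem_filter, Fintype.mem_piFinset]
      refine ⟨fun _ => hm1, fun hall => hm3 ⟨?_, ?_⟩⟩
      · exact pairs_of e1 (holds_mono (by linarith) (hall (fun _ => aliquot m) (fun _ => Or.inl rfl)))
      · exact pairs_of e2 (holds_mono (by linarith) (hall (fun _ => m - Nat.totient m) (fun _ => Or.inr rfl)))
  have hc : (((Icc 1 N).filter (fun m => Even m ∧ ¬ (Pairs ε N (aliquot m) ∧ Pairs ε N (m - Nat.totient m)))).card : ℝ) ≤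
      A.card + D.card := by
    exact_mod_cast (card_le_card hsub).trans ((card_union_le _ _).trans (add_le_add le_rfl card_image_le))
  linarith

open Classical in
/-- **The prime tuples conjecture for almost all tuples of shifts which are aliquot sums.** (1) For `i = 1, ..., k` let `f i`
be a positive multiplicative function of moderate growth with `f i p = p + c i`, `c i ≠ 0`, for all large primes `p`, let
`u i ≠ 0`, `v i`, `w i` be integers, and `F i (m) = u i m + v i f i (m) + w i`. With at most `ε N ^ k` exceptions, the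
formula of Hardy and Littlewood holds for the primes `p ≤ N` and the shifts `F 1 (m 1), ..., F k (m k)`, for all vectors
`(m 1, ..., m k)` with `m i ≤ N` and `m i / (log m i)^C ≤ F i (m i) ≤ B N`. (2) Euler's function and the sum of the divisors
are such functions. (3) With at most `ε N ^ k` exceptions, for all vectors `(m 1, ..., m k)` with `m i ≤ N`, the formula
holds for all choices of the shifts `a i ∈ {s (m i), m i - φ (m i)}`. (4) With at most `ε N` exceptions, for all even
`m ≤ N`, for `a = s(m)` and for `a = m - φ(m)`, the number of the primes `p ≤ N` for which `p + a` is prime is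
`S(a) N / log ^ 2 N` up to a relative error `ε`, with the singular series `S(a) > 0`. -/
theorem result :
    (∀ k : ℕ, 1 ≤ k → ∀ (f : Fin k → ℕ → ℕ) (c u v w : Fin k → ℤ), (∀ i, Moderate (f i) (c i)) → (∀ i, c i ≠ 0) →
      (∀ i, u i ≠ 0) → ∀ (B C U : ℕ) (ε : ℝ), 0 < ε → ∃ N₀ : ℕ, ∀ N : ℕ, N₀ ≤ N →
        num k N (fun m => (∀ i, (m i : ℝ) / Real.log (m i) ^ C ≤ ((u i * m i + v i * f i (m i) + w i : ℤ) : ℝ) ∧
          u i * m i + v i * f i (m i) + w i ≤ B * N) ∧
          ¬ Holds ε U N (fun i => (u i * m i + v i * f i (m i) + w i).toNat)) ≤ ε * (N : ℝ) ^ k) ∧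
    (Moderate Nat.totient (-1) ∧ Moderate (fun m => ∑ d ∈ m.divisors, d) 1) ∧
    (∀ k : ℕ, 1 ≤ k → ∀ (U : ℕ) (ε : ℝ), 0 < ε → ∃ N₀ : ℕ, ∀ N : ℕ, N₀ ≤ N →
      num k N (fun m => ¬ ∀ a : Fin k → ℕ, (∀ i, a i = aliquot (m i) ∨ a i = m i - Nat.totient (m i)) → Holds ε U N a) ≤
        ε * (N : ℝ) ^ k) ∧
    (∀ ε : ℝ, 0 < ε → ∃ N₀ : ℕ, ∀ N : ℕ, N₀ ≤ N →
      (((Icc 1 N).filter (fun m => Even m ∧ ¬ (Pairs ε N (aliquot m) ∧ Pairs ε N (m - Nat.totient m)))).card : ℝ) ≤ ε * N) :=
  ⟨fun k hk f c u v w hf hc hu B C U ε hε => general k hk f c u v w hf hc hu B C U ε hε,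
    ⟨moderate_totient, moderate_sigma⟩, fun k hk U ε hε => both k hk U ε hε, fun ε hε => pairs ε hε⟩

end Pool.Agent.Results.MP_e87c7d_nt.AliquotShifts
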