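import Pool.Agent.Helper85.HP.A7

/-!
# MP_e94e4b_nt: almost equal primes with the sum `2 N² + 2 N + 2`, with a power saving at most scales

The problem asks for `k` with `2 ≤ k ≤ 2 N` such that `A_N(k) = N² + k + 1` and `B_N(k) = (N + 1)² - k` are both
prime. Here `k` may be larger, up to a small power saving against `N²`: for every `ε > 0` there is `δ > 0` such that at
most scales `X`, for all but at most `X ^ (1 - δ)` of the `N < X`, the number of the `k` with `A_N(k)` and `B_N(k)`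
prime in an interval `[a, b)` is the one predicted by Hardy and Littlewood, up to the relative error `ε`, for ALL the
intervals of length at least `X ^ (2 - δ)` on which `A_N` and `B_N` are positive. In particular, for all but at most
`X ^ (1 - δ)` of the `N < X` there is a `k` with `|k| ≤ X ^ (2 - δ)`: the two primes are almost equal.

Proof: the approximation of the Fourier transform of the primes by that of its model, with a power saving in the
supremum norm at most scales (the engine of `MP_e87c7d_nt.PowerSavingAtMostScales`, `Helper86.PS`), Hölder's inequality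
with the fourth moment of the exponential sum over the exceptional `N` (the energy of the numbers `2 N² + 2 N + 2` is
nearly minimal), and the main term of the engine, which is valid for every single `N`.
-/

set_option autoImplicit false

namespace Pool.Agent.Results.MP_e94e4b_nt.AlmostEqualPrimes

open Finset

open Classical in
/-- The property `P` holds at most scales: the set of the positive integers `X` with the property `P` has upper
logarithmic density at least `1 - ε`. Precisely, for arbitrarily large `R` the sum of `1 / X` over the `X ≤ R`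
without the property is at most `ε log R`. -/
def MostScales (ε : ℝ) (P : ℕ → Prop) : Prop :=
  ∀ R₀ : ℕ, ∃ R : ℕ, R₀ ≤ R ∧ ∑ X ∈ (Icc 1 R).filter (fun X => ¬ P X), (1 : ℝ) / X ≤ ε * Real.log R

/-- The number of the residue classes `k` modulo `p` for which `p` divides `A_N(k) B_N(k)`. -/
def nu (N p : ℕ) : ℕ :=
  ((range p).filter (fun k : ℕ => (p : ℤ) ∣ ((N : ℤ) ^ 2 + k + 1) * (((N : ℤ) + 1) ^ 2 - k))).card

/-- `S` is the singular series. -/
def IsSingularSeries (N : ℕ) (S : ℝ) : Prop :=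
  HasProd (fun p : Nat.Primes => (1 - (nu N p : ℝ) / (p : ℕ)) * ((1 - 1 / ((p : ℕ) : ℝ))⁻¹) ^ 2) S

/-- `A_N(k) = N² + k + 1` and `B_N(k) = (N + 1)² - k` are both prime. -/
def PrimePair (N : ℕ) (k : ℤ) : Prop := ((N : ℤ) ^ 2 + k + 1).toNat.Prime ∧ (((N : ℤ) + 1) ^ 2 - k).toNat.Prime

open Classical in
/-- The number of the integers `k` with `a ≤ k < b` for which `A_N(k)` and `B_N(k)` are both prime. -/
noncomputable def pairs (N : ℕ) (a b : ℤ) : ℕ := ((Ico a b).filter (fun k : ℤ => PrimePair N k)).card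

/-- For all intervals `[a, b)` of length at least `X ^ (2 - δ)` on which `A_N(k)` and `B_N(k)` are positive the number
of the `k` in `[a, b)` for which both are prime is `S (b - a) / (log X²)²` up to the relative error `ε`, where `S` is
the singular series, which is positive. -/
def Predicted (ε δ : ℝ) (X N : ℕ) : Prop :=
  ∃ S : ℝ, 0 < S ∧ IsSingularSeries N S ∧ ∀ a b : ℤ, -(N : ℤ) ^ 2 ≤ a → b ≤ ((N : ℤ) + 1) ^ 2 →
    (X : ℝ) ^ (2 - δ) ≤ ((b - a : ℤ) : ℝ) →
    |(pairs N a b : ℝ) - S * (((b - a : ℤ) : ℝ) / (2 * Real.log X) ^ 2)| ≤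
      ε * (S * (((b - a : ℤ) : ℝ) / (2 * Real.log X) ^ 2))

lemma pairs_eq (N : ℕ) (a b : ℤ) :
    pairs N a b = Pool.Agent.Helper86.PS.pc Pool.Agent.Helper85.HP.a2 (Pool.Agent.Helper85.HP.h2 (Pool.Agent.Helper85.HP.sq2 N))
      (a + ((N : ℤ) ^ 2 + 1)) (b + ((N : ℤ) ^ 2 + 1)) := by
  classical
  unfold pairs Pool.Agent.Helper86.PS.pc
  apply card_bij (fun k _ => k + ((N : ℤ) ^ 2 + 1))
  · intro k hk
    rw [mem_filter, mem_Ico] at hk ⊢
    refine ⟨⟨by linarith [hk.1.1], by linarith [hk.1.2]⟩, fun i => ?_⟩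
    have e0 : (1 : ℤ) * (k + ((N : ℤ) ^ 2 + 1)) + 0 = (N : ℤ) ^ 2 + k + 1 := by ring
    have e1 : (-1 : ℤ) * (k + ((N : ℤ) ^ 2 + 1)) + Pool.Agent.Helper85.HP.sq2 N = ((N : ℤ) + 1) ^ 2 - k := by
      unfold Pool.Agent.Helper85.HP.sq2; ring
    fin_cases i
    · simp only [Pool.Agent.Helper85.HP.a2, Pool.Agent.Helper85.HP.h2, Fin.zero_eta, Matrix.cons_val_zero]
      rw [e0]; exact hk.2.1
    · simp only [Pool.Agent.Helper85.HP.a2, Pool.Agent.Helper85.HP.h2, Fin.mk_one, Matrix.cons_val_one,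
        Matrix.cons_val_fin_one]
      rw [e1]; exact hk.2.2
  · intro x _ y _ hxy
    linarith
  · intro n hn
    rw [mem_filter, mem_Ico] at hn
    refine ⟨n - ((N : ℤ) ^ 2 + 1), ?_, by ring⟩
    rw [mem_filter, mem_Ico]
    refine ⟨⟨by linarith [hn.1.1], by linarith [hn.1.2]⟩, ?_⟩
    have h0 := hn.2 0
    have h1 := hn.2 1
    simp only [Pool.Agent.Helper85.HP.a2, Pool.Agent.Helper85.HP.h2, Matrix.cons_val_zero, Matrix.cons_val_one] at h0 h1
    have e0 : (N : ℤ) ^ 2 + (n - ((N : ℤ) ^ 2 + 1)) + 1 = 1 * n + 0 := by ring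
    have e1 : ((N : ℤ) + 1) ^ 2 - (n - ((N : ℤ) ^ 2 + 1)) = -1 * n + Pool.Agent.Helper85.HP.sq2 N := by
      unfold Pool.Agent.Helper85.HP.sq2; ring
    unfold PrimePair
    rw [e0, e1]
    exact ⟨h0, h1⟩

lemma nu_eq (N : ℕ) {p : ℕ} (hp : p.Prime) :
    Pool.Agent.Helper86.PS.nuP Pool.Agent.Helper85.HP.a2 (Pool.Agent.Helper85.HP.h2 (Pool.Agent.Helper85.HP.sq2 N)) p = nu N p := by
  rw [← Pool.Agent.Helper86.PS.nuP_translate _ _ ((N : ℤ) ^ 2 + 1) hp.pos]
  unfold Pool.Agent.Helper86.PS.nuP nu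
  congr 1
  apply filter_congr
  intro x _
  have e0 : (1 : ℤ) * x + (0 + ((N : ℤ) ^ 2 + 1) * 1) = (N : ℤ) ^ 2 + x + 1 := by ring
  have e1 : (-1 : ℤ) * x + (Pool.Agent.Helper85.HP.sq2 N + ((N : ℤ) ^ 2 + 1) * (-1)) = ((N : ℤ) + 1) ^ 2 - x := by
    unfold Pool.Agent.Helper85.HP.sq2; ring
  rw [(Nat.prime_iff_prime_int.1 hp).dvd_mul, ← e0, ← e1, Fin.exists_fin_two]
  simp only [Pool.Agent.Helper85.HP.a2, Pool.Agent.Helper85.HP.h2, Pi.add_apply, Pi.smul_apply, smul_eq_mul,
    Matrix.cons_val_zero, Matrix.cons_val_one]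

lemma predicted_of_good {ε δ : ℝ} {X N : ℕ} (h : Pool.Agent.Helper85.HP.Good ε δ X N) : Predicted ε δ X N := by
  obtain ⟨S, hS0, hS, hmain⟩ := h
  refine ⟨S, hS0, ?_, fun a b ha hb hab => ?_⟩
  · unfold IsSingularSeries
    have e : (fun p : Nat.Primes => (1 - (nu N p : ℝ) / (p : ℕ)) * ((1 - 1 / ((p : ℕ) : ℝ))⁻¹) ^ 2) =
        fun p : Nat.Primes => Pool.Agent.Helper86.PS.facP Pool.Agent.Helper85.HP.a2
          (Pool.Agent.Helper85.HP.h2 (Pool.Agent.Helper85.HP.sq2 N)) (p : ℕ) := by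
      funext p
      unfold Pool.Agent.Helper86.PS.facP
      rw [nu_eq N p.2]
    rw [e]
    exact hS
  · have h1 := hmain (a + ((N : ℤ) ^ 2 + 1)) (b + ((N : ℤ) ^ 2 + 1)) (by linarith) (by
      unfold Pool.Agent.Helper85.HP.sq2
      linarith) (by
      have e : b + ((N : ℤ) ^ 2 + 1) - (a + ((N : ℤ) ^ 2 + 1)) = b - a := by ring
      rw [e]; exact hab)
    have e : b + ((N : ℤ) ^ 2 + 1) - (a + ((N : ℤ) ^ 2 + 1)) = b - a := by ring
    rw [e, ← pairs_eq] at h1
    exact h1

lemma exists_pair {ε δ : ℝ} {X N : ℕ} (hε1 : ε < 1) (hX : 2 ≤ X) (hδ : δ ≤ 1) (h : Predicted ε δ X N)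
    (hN : (X : ℝ) ^ (2 - δ) ≤ (N : ℝ) ^ 2) : ∃ k : ℤ, |(k : ℝ)| ≤ (X : ℝ) ^ (2 - δ) ∧ PrimePair N k := by
  classical
  obtain ⟨S, hS0, -, hmain⟩ := h
  have hXr : (2 : ℝ) ≤ X := by exact_mod_cast hX
  obtain ⟨W, hW⟩ : ∃ W : ℝ, W = (X : ℝ) ^ (2 - δ) := ⟨_, rfl⟩
  rw [← hW] at hN hmain ⊢
  have hW2 : 2 ≤ W := by
    rw [hW]
    calc (2 : ℝ) ≤ X := hXr
      _ = (X : ℝ) ^ (1 : ℝ) := (Real.rpow_one _).symm
      _ ≤ _ := Real.rpow_le_rpow_of_exponent_le (by linarith) (by linarith)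
  obtain ⟨t, ht⟩ : ∃ t : ℕ, t = ⌈W / 2⌉₊ := ⟨_, rfl⟩
  have ht1 : W / 2 ≤ t := by rw [ht]; exact Nat.le_ceil _
  have ht2 : (t : ℝ) ≤ W := by
    have := Nat.ceil_lt_add_one (a := W / 2) (by linarith)
    rw [← ht] at this
    linarith
  have htN : (t : ℤ) ≤ (N : ℤ) ^ 2 := by
    have : (t : ℝ) ≤ (N : ℝ) ^ 2 := ht2.trans hN
    exact_mod_cast this
  have h1 := hmain (-(t : ℤ)) t (by linarith) (by
    have : (0 : ℤ) ≤ N := Int.natCast_nonneg _
    nlinarith) (by
    push_cast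
    linarith)
  obtain ⟨V, hV⟩ : ∃ V : ℝ, V = S * ((((t : ℤ) - (-(t : ℤ)) : ℤ) : ℝ) / (2 * Real.log X) ^ 2) := ⟨_, rfl⟩
  rw [← hV] at h1
  have hlog : 0 < Real.log X := Real.log_pos (by linarith)
  have hV0 : 0 < V := by
    rw [hV]
    apply mul_pos hS0
    apply div_pos
    · push_cast
      linarith
    · positivity
  have h2 := (abs_le.1 h1).1
  have h3 : (0 : ℝ) < pairs N (-(t : ℤ)) t := by
    have : ε * V < 1 * V := mul_lt_mul_of_pos_right hε1 hV0
    linarith
  have h4 : 0 < pairs N (-(t : ℤ)) t := by exact_mod_cast h3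
  unfold pairs at h4
  obtain ⟨k, hk⟩ := card_pos.1 h4
  rw [mem_filter, mem_Ico] at hk
  refine ⟨k, ?_, hk.2⟩
  refine le_trans ?_ ht2
  have : |k| ≤ (t : ℤ) := abs_le.2 ⟨hk.1.1, hk.1.2.le⟩
  exact_mod_cast this

lemma most_mono {ε : ℝ} {P P' : ℕ → Prop} (h : ∀ X, P X → P' X) (hm : Pool.Agent.Helper86.PS.MostSc ε P) :
    MostScales ε P' := by
  classical
  intro R₀
  obtain ⟨R, hR, hsum⟩ := hm R₀
  refine ⟨R, hR, le_trans ?_ hsum⟩
  apply sum_le_sum_of_subset_of_nonneg
  · intro X hX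
    rw [mem_filter] at hX ⊢
    exact ⟨hX.1, fun hP => hX.2 (h X hP)⟩
  · intro X _ _
    positivity

open Classical in
/-- **Almost equal primes with the sum `2 N² + 2 N + 2`.** For `0 < ε < 1` there is `δ > 0` such that at most scales `X`,
for all but at most `X ^ (1 - δ)` of the `N < X`, the number of the `k` in `[a, b)` with `A_N(k)` and `B_N(k)` prime is
the one predicted by Hardy and Littlewood up to the relative error `ε`, for all intervals of length at least
`X ^ (2 - δ)` on which `A_N` and `B_N` are positive; and for all but at most `X ^ (1 - δ)` of the `N < X` there is an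
integer `k` with `|k| ≤ X ^ (2 - δ)` such that `A_N(k)` and `B_N(k)` are both prime. -/
theorem result (ε : ℝ) (hε : 0 < ε) (hε1 : ε < 1) : ∃ δ : ℝ, 0 < δ ∧ MostScales ε (fun X =>
    (((range X).filter (fun N => ¬ Predicted ε δ X N)).card : ℝ) ≤ (X : ℝ) ^ (1 - δ) ∧
    (((range X).filter (fun N => ¬ ∃ k : ℤ, |(k : ℝ)| ≤ (X : ℝ) ^ (2 - δ) ∧ PrimePair N k)).card : ℝ) ≤
      (X : ℝ) ^ (1 - δ)) := by
  obtain ⟨δ0, hδ0, hm⟩ := Pool.Agent.Helper85.HP.mostX hε
  obtain ⟨d, hd⟩ : ∃ d : ℝ, d = min δ0 1 := ⟨_, rfl⟩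
  have hd0 : 0 < d := by rw [hd]; exact lt_min hδ0 one_pos
  have hd1 : d ≤ 1 := by rw [hd]; exact min_le_right _ _
  have hdδ : d ≤ δ0 := by rw [hd]; exact min_le_left _ _
  obtain ⟨X0, hX0⟩ := exists_nat_ge ((3 : ℝ) ^ (4 / d))
  refine ⟨d / 4, by positivity, ?_⟩
  refine most_mono (fun X hP => ?_) (hm (X0 + 2))
  · obtain ⟨hXX0, E, hE1, hE2⟩ := hP
    have hX2 : 2 ≤ X := by omega
    have hXr : (2 : ℝ) ≤ X := by exact_mod_cast hX2
    have hX1 : (1 : ℝ) ≤ X := by linarith
    have hX0' : (0 : ℝ) < X := by linarith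
    have h3 : 3 ≤ (X : ℝ) ^ (d / 4) := by
      have h4 : (3 : ℝ) ^ (4 / d) ≤ X := hX0.trans (by exact_mod_cast (by omega : X0 ≤ X))
      have h5 : ((3 : ℝ) ^ (4 / d)) ^ (d / 4) = 3 := by
        rw [← Real.rpow_mul (by norm_num)]
        have : 4 / d * (d / 4) = 1 := by field_simp
        rw [this, Real.rpow_one]
      rw [← h5]
      exact Real.rpow_le_rpow (by positivity) h4 (by positivity)
    have hgood : ∀ N < X, N ∉ E → Predicted ε (d / 4) X N ∧ Predicted ε d X N := by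
      intro N hN hNE
      obtain ⟨S, hS0, hS, hmain⟩ := predicted_of_good (hE2 N hN hNE)
      constructor
      · refine ⟨S, hS0, hS, fun a b ha hb hab => hmain a b ha hb (le_trans ?_ hab)⟩
        exact Real.rpow_le_rpow_of_exponent_le hX1 (by linarith)
      · refine ⟨S, hS0, hS, fun a b ha hb hab => hmain a b ha hb (le_trans ?_ hab)⟩
        exact Real.rpow_le_rpow_of_exponent_le hX1 (by linarith)
    constructor
    · refine le_trans ?_ (hE1.trans (Real.rpow_le_rpow_of_exponent_le hX1 (by linarith)))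
      have hsub : (range X).filter (fun N => ¬ Predicted ε (d / 4) X N) ⊆ E := by
        intro N hN
        rw [mem_filter, mem_range] at hN
        by_contra hc
        exact hN.2 (hgood N hN.1 hc).1
      exact_mod_cast card_le_card hsub
    · obtain ⟨T, hT⟩ : ∃ T : ℝ, T = (X : ℝ) ^ (1 - d / 2) := ⟨_, rfl⟩
      have hT1 : 1 ≤ T := by rw [hT]; exact Real.one_le_rpow hX1 (by linarith)
      have hsub : (range X).filter (fun N => ¬ ∃ k : ℤ, |(k : ℝ)| ≤ (X : ℝ) ^ (2 - d / 4) ∧ PrimePair N k) ⊆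
          E ∪ range ⌈T⌉₊ := by
        intro N hN
        rw [mem_filter, mem_range] at hN
        rw [mem_union, mem_range]
        by_contra hc
        push Not at hc
        apply hN.2
        have hNT : T ≤ N := (Nat.le_ceil T).trans (by exact_mod_cast hc.2)
        have hN2 : (X : ℝ) ^ (2 - d) ≤ (N : ℝ) ^ 2 := by
          have e1 : (X : ℝ) ^ (2 - d) = T ^ 2 := by
            rw [hT, ← Real.rpow_natCast, ← Real.rpow_mul hX0'.le]
            congr 1
            push_cast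
            ring
          rw [e1]
          exact pow_le_pow_left₀ (by linarith) hNT 2
        obtain ⟨k, hk1, hk2⟩ := exists_pair hε1 hX2 hd1 (hgood N hN.1 hc.1).2 hN2
        exact ⟨k, hk1.trans (Real.rpow_le_rpow_of_exponent_le hX1 (by linarith)), hk2⟩
      have hcard : (((range X).filter (fun N => ¬ ∃ k : ℤ, |(k : ℝ)| ≤ (X : ℝ) ^ (2 - d / 4) ∧ PrimePair N k)).card : ℝ) ≤
          E.card + ⌈T⌉₊ := by
        have := (card_le_card hsub).trans (card_union_le _ _)
        rw [card_range] at this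
        exact_mod_cast this
      have hceil : (⌈T⌉₊ : ℝ) ≤ 2 * T := by
        have := Nat.ceil_lt_add_one (a := T) (by linarith)
        linarith
      have hET : (E.card : ℝ) ≤ T := hE1.trans (by rw [hT]; exact Real.rpow_le_rpow_of_exponent_le hX1 (by linarith))
      have hfin : 3 * T ≤ (X : ℝ) ^ (1 - d / 4) := by
        have e1 : (X : ℝ) ^ (1 - d / 4) = (X : ℝ) ^ (d / 4) * T := by
          rw [hT, ← Real.rpow_add hX0']
          congr 1
          ring
        rw [e1]
        exact mul_le_mul_of_nonneg_right h3 (by linarith)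
      linarith

end Pool.Agent.Results.MP_e94e4b_nt.AlmostEqualPrimes
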