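import Pool.Agent.Helper85.AE.Abs
import Pool.Agent.Helper85.AE.Few
import Pool.Agent.Results.MP_7b7e48_nt.AliquotSums

/-!
# Goldbach's conjecture for almost all arithmetic derivatives

Let `n'` be the arithmetic derivative of `n`: `p' = 1` for the primes `p`, and `(m n)' = m n' + n m'`. For almost all `m` for
which `m'` is even (these are, for instance, the multiples of `4`, and the odd `m` with an even number `Ω(m)` of prime
factors), `m'` is the sum of two distinct primes `p`, `q`, so that `m' = (p q)'`; and the number of the representations is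
the one predicted by Hardy and Littlewood, also if the smaller prime is restricted to an arbitrary window of a length of at
least `n / (log n)^W`. (Goldbach's conjecture would imply that every even integer larger than `2` is a derivative; Ufnarovski
and Åhlander, How to differentiate a number.) The same is true for `u m + D(m) + w` with arbitrary integers `u`, `w` and every
function `D` of moderate growth with `D(m n) = m D(n) + n D(m)` for coprime `m`, `n` and with a fixed value `c ≠ 0` at all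
large primes, for example `D(m) = ∑_{p ∣ m} m / p`.

The size of the set of the `m` whose derivative belongs to a given set of `x^(1 - δ)` integers is not known, so the result
does not follow from the bounds for the number of the exceptions in Goldbach's problem.

Proof. Almost all `m ≤ x` are products `k Q P` with primes `Q, P > x^τ` not dividing `k` resp. each other, so
`m' = (k' Q + k) P + k Q`. The number of the solutions of `m_1' + ... + m_h' = m_(h+1)' + ... + m_(2h)'` with such `m_i` is
at most `x^(2h - 1)` times a power of `log x` (`Helper85/AE`): if the exponential sum is large at the frequency `α`, then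
`α (k' Q + k)` is close to an integer for many pairs `(k, Q)`, so `q α k` is close to an integer for a small `q` and many
`k` by the lemma of Vinogradov applied to `Q`, and a second application, to `k`, shows that `α` is close to a fraction with a
small denominator. The theorem on Goldbach representations for families of small additive energy (`TH935/GF`, starting
files) completes the proof.
-/

set_option autoImplicit false

namespace Pool.Agent.Results.MP_7b7e48_nt.ArithmeticDerivatives

open Finset Filter Topology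
open Pool.Agent.H560R3.GB (sing)

/-- the set `M_n` of the pairs `(p, p')` of primes with `p + p' = 2 n` and `p > n > p'` -/
def M (n : ℕ) : Finset (ℕ × ℕ) :=
  (range (2 * n + 1) ×ˢ range (2 * n + 1)).filter
    (fun x => x.1.Prime ∧ x.2.Prime ∧ x.1 + x.2 = 2 * n ∧ n < x.1 ∧ x.2 < n)

/-- `g(n)`, the number of the elements of `M_n` -/
def g (n : ℕ) : ℕ := (M n).card

/-- the number of the elements `(p, p')` of `M_n` with `y₁ < p' ≤ y₂` -/
def gw (n y₁ y₂ : ℕ) : ℕ := ((M n).filter (fun x => y₁ < x.2 ∧ x.2 ≤ y₂)).card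

/-- the prediction of Hardy and Littlewood for the number of the pairs in a window of the length `l` -/
noncomputable def pred (n : ℕ) (l : ℝ) : ℝ := sing (2 * n) * l / Real.log ((2 * n : ℕ) : ℝ) ^ 2

/-- (1) `g n` is `pred n n`, up to a relative error of at most `ε`; (2) in every window `(y₁, y₂]` with
`0 ≤ y₁ < y₂ < n` and `y₂ - y₁ ≥ n / (log n)^W` the number of the pairs is `pred n (y₂ - y₁)`, up to a relative error
of at most `ε`. -/
def Formula (ε : ℝ) (W n : ℕ) : Prop :=
  |(g n : ℝ) - pred n n| ≤ ε * pred n n ∧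
  ∀ y₁ y₂ : ℕ, y₁ < y₂ → y₂ < n → (n : ℝ) / Real.log n ^ W ≤ (y₂ : ℝ) - y₁ →
    |(gw n y₁ y₂ : ℝ) - pred n ((y₂ : ℝ) - y₁)| ≤ ε * pred n ((y₂ : ℝ) - y₁)

/-- A function with `D (m n) = m D(n) + n D(m)` for coprime `m`, `n`, with `|D m| ≤ m (1 + log m)^C`, and with `D p = c` for
all large primes `p`. -/
structure Leibniz (D : ℕ → ℤ) (c : ℤ) : Prop where
  mul : ∀ m n : ℕ, Nat.Coprime m n → D (m * n) = m * D n + n * D m
  growth : ∃ C : ℕ, ∀ m : ℕ, 1 ≤ m → |(D m : ℝ)| ≤ m * (1 + Real.log m) ^ C
  prime : ∃ P : ℕ, ∀ p : ℕ, P ≤ p → p.Prime → D p = c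

open Classical in
/-- The proportion of the positive integers `m ≤ N` without the property `P` tends to `0`. -/
def AlmostAll (P : ℕ → Prop) : Prop :=
  Tendsto (fun N : ℕ => (((Icc 1 N).filter (fun m => ¬ P m)).card : ℝ) / N) atTop (𝓝 0)

/-- The arithmetic derivative: `n' = ∑ v n / p`, with the sum over the primes `p ∣ n`, where `p ^ v` divides `n` exactly. -/
def deriv (n : ℕ) : ℕ := ∑ p ∈ n.primeFactors, n.factorization p * (n / p)

/-- `∑_{p ∣ n} n / p` -/
def cofactors (n : ℕ) : ℕ := ∑ p ∈ n.primeFactors, n / p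

/-- `d` is the sum of two distinct primes `p`, `q`, and so the derivative of `p q`. -/
def SumOfTwo (d : ℕ) : Prop := ∃ p q : ℕ, p.Prime ∧ q.Prime ∧ p ≠ q ∧ p + q = d ∧ deriv (p * q) = d

open Pool.Agent.Results.MP_7b7e48_nt.AliquotSums (almostAll_iff almostAll_and formula_of log_ge_two sum_of)

/-- families of small energy -/
theorem gold_of_fam {F : ℕ → ℤ} (hF : Pool.Agent.Helper85.AE.Fam F) (C W : ℕ) (ε : ℝ) (hε : 0 < ε) :
    AliquotSums.AlmostAll (fun m => (m : ℝ) / Real.log m ^ C ≤ (F m : ℝ) → Even (F m) → AliquotSums.Formula ε W (F m / 2).toNat) := by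
  classical
  rw [almostAll_iff]
  intro δ hδ
  obtain ⟨h, C₁, x₀, hh, hfam⟩ := hF C (δ / 4) (by positivity)
  obtain ⟨n₀, hn₀⟩ := formula_of ε hε W
  obtain ⟨P, hP⟩ : ∃ P : ℕ → Prop, ∀ n, P n ↔ AliquotSums.Formula ε W (n / 2) := ⟨_, fun _ => Iff.rfl⟩
  obtain ⟨N₀, htr⟩ := Pool.Agent.TH935.GF.transfer h 1 (C₁ + C₁ + 2 * h + 1) 1 P (by
    intro B C U
    refine Pool.Agent.TH935.GF.fam_win h B C (W + 2) U (2 * n₀) hh (ε / 2) (by positivity) P ?_
    intro m hm h2 hw
    obtain ⟨k, hk⟩ := h2
    rw [hP, hk, Nat.mul_div_cancel_left _ (by norm_num)]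
    rw [hk] at hw
    exact hn₀ k (by omega) hw)
  obtain ⟨n1, hn1⟩ := Pool.Agent.Helper85.AE.ev_log (4 + 4 / δ)
  obtain ⟨n2, hn2⟩ := exists_nat_gt (8 / δ)
  refine ⟨x₀ + N₀ + n1 + n2 + 3, fun x hx => ?_⟩
  obtain ⟨S, hSx, ⟨E, hE, hSE⟩, hSb, hSen⟩ := hfam x (by omega)
  have hx3 : (3 : ℝ) ≤ x := by exact_mod_cast (by omega : 3 ≤ x)
  have hx0 : (0 : ℝ) < x := by linarith
  obtain ⟨L, hL⟩ : ∃ L, L = Real.log x := ⟨_, rfl⟩
  have hL1 : 4 + 4 / δ ≤ L := by rw [hL]; exact hn1 x (by omega)
  have hδ4 : 0 < 4 / δ := by positivity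
  have hL4 : 4 ≤ L := by linarith
  have hLδ : 4 ≤ δ * L := by
    have : 4 / δ ≤ L := by linarith
    rwa [div_le_iff₀ hδ, mul_comm] at this
  rw [← hL] at hSE hSb hSen
  -- the bad members
  obtain ⟨Bad, hBad⟩ : ∃ Bad : Finset ℕ, Bad = (Icc 1 x).filter (fun m : ℕ => ¬ ((m : ℝ) / Real.log m ^ C ≤
    (F m : ℝ) → Even (F m) → AliquotSums.Formula ε W (F m / 2).toNat)) := ⟨_, rfl⟩
  suffices hsuf : (Bad.card : ℝ) ≤ δ * x by
    rw [hBad] at hsuf
    convert hsuf
  have hBm : ∀ m ∈ Bad, m ∈ Icc 1 x ∧ (m : ℝ) / Real.log m ^ C ≤ (F m : ℝ) ∧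
      Even (F m) ∧ ¬ AliquotSums.Formula ε W (F m / 2).toNat := by
    intro m hm
    rw [hBad, mem_filter] at hm
    obtain ⟨h1, h2⟩ := hm
    push Not at h2
    exact ⟨h1, h2⟩
  -- members of S
  obtain ⟨T, hT⟩ : ∃ T : Finset {n // n ∈ S}, T = univ.filter (fun n => n.1 ∈ Bad ∧ 1 < n.1) := ⟨_, rfl⟩
  have hsub : Bad ⊆ E ∪ ({1} ∪ T.map (Function.Embedding.subtype _)) := by
    intro m hm
    obtain ⟨h1, h2, h3, h4⟩ := hBm m hm
    rw [mem_union, mem_union, mem_singleton, Finset.mem_map]
    by_cases hm1 : m = 1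
    · right; left; exact hm1
    · have hm2 : 1 < m := by
        have := (mem_Icc.1 h1).1
        omega
      have hlogm : 0 < Real.log m := Real.log_pos (by exact_mod_cast hm2)
      by_cases hmS : m ∈ S
      · right; right
        exact ⟨⟨m, hmS⟩, by rw [hT, mem_filter]; exact ⟨mem_univ _, hm, hm2⟩, rfl⟩
      · left
        apply hSE m h1 hmS
        have h5 : (m : ℝ) / L ^ C ≤ (m : ℝ) / Real.log m ^ C := by
          apply div_le_div_of_nonneg_left (Nat.cast_nonneg _) (by positivity)
          apply pow_le_pow_left₀ hlogm.le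
          rw [hL]
          apply Real.log_le_log (by exact_mod_cast (by omega : 0 < m))
          exact_mod_cast (mem_Icc.1 h1).2
        exact (h5.trans h2).trans (le_abs_self _)
  have hcard : (Bad.card : ℝ) ≤ E.card + (1 + T.card) := by
    have h1 := (card_le_card hsub).trans ((card_union_le _ _).trans (add_le_add le_rfl (card_union_le _ _)))
    rw [card_singleton, card_map] at h1
    exact_mod_cast h1
  have h8 : 1 ≤ δ / 8 * x := by
    have : 8 / δ ≤ x := hn2.le.trans (by exact_mod_cast (by omega : n2 ≤ x))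
    rw [div_le_iff₀ hδ] at this
    linarith
  -- the family
  have hfc : Fintype.card {n // n ∈ S} = S.card := Fintype.card_coe _
  have hSc : (S.card : ℝ) ≤ x := by
    have := card_le_card hSx
    rw [Nat.card_Icc, Nat.add_sub_cancel] at this
    exact_mod_cast this
  have hTS : (T.card : ℝ) ≤ S.card := by
    have : T.card ≤ Fintype.card {n // n ∈ S} := card_le_univ _
    rw [hfc] at this
    exact_mod_cast this
  have hTle : (T.card : ℝ) ≤ δ / 4 * x := by
    rcases le_or_gt (S.card : ℝ) (δ / 4 * x) with hsm | hbig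
    · exact hTS.trans hsm
    obtain ⟨N, hN⟩ : ∃ N : ℕ, N = x * ⌈L ^ C₁⌉₊ := ⟨_, rfl⟩
    have hc1 : L ^ C₁ ≤ ⌈L ^ C₁⌉₊ := Nat.le_ceil _
    have hLC1 : 1 ≤ L ^ C₁ := one_le_pow₀ (by linarith)
    have hc2 : (⌈L ^ C₁⌉₊ : ℝ) ≤ L ^ (C₁ + 1) := by
      have h1 : (⌈L ^ C₁⌉₊ : ℝ) < L ^ C₁ + 1 := Nat.ceil_lt_add_one (by positivity)
      have h2 : L ^ (C₁ + 1) = L * L ^ C₁ := by ring
      rw [h2]
      nlinarith
    have hc3 : 1 ≤ ⌈L ^ C₁⌉₊ := by
      have : (1 : ℝ) ≤ ⌈L ^ C₁⌉₊ := hLC1.trans hc1
      exact_mod_cast this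
    have hxN : x ≤ N := by rw [hN]; exact Nat.le_mul_of_pos_right x hc3
    have hNr : (N : ℝ) = x * ⌈L ^ C₁⌉₊ := by rw [hN]; push_cast; ring
    have hLN : L ≤ Real.log N := by
      rw [hL]
      exact Real.log_le_log hx0 (by exact_mod_cast hxN)
    have key := htr N (by omega) {n // n ∈ S} (fun n => F n.1) (by
      intro n
      have h1 := hSb n.1 n.2
      have h2 : ((F n.1 : ℤ) : ℝ) ≤ N := by
        refine (le_abs_self _).trans (h1.trans ?_)
        rw [hNr]
        exact mul_le_mul_of_nonneg_left hc1 hx0.le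
      rw [Nat.cast_one, one_mul]
      exact_mod_cast h2) (by
      rw [hfc, hNr]
      have h1 : (Pool.Agent.TH935.GF.En h (fun n : {n // n ∈ S} => F n.1) : ℝ) *
          (x * ⌈L ^ C₁⌉₊) ≤ L ^ C₁ * (x : ℝ) ^ (2 * h) * L ^ (C₁ + 1) := by
        rw [← mul_assoc]
        exact mul_le_mul hSen hc2 (by positivity) (by positivity)
      refine h1.trans ?_
      have h2 : (x : ℝ) ≤ L * S.card := by
        have h3 : x ≤ (δ * L) * x / 4 := by nlinarith
        have h4 : L * (δ / 4 * x) ≤ L * S.card := mul_le_mul_of_nonneg_left hbig.le (by linarith)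
        linarith
      calc L ^ C₁ * (x : ℝ) ^ (2 * h) * L ^ (C₁ + 1) ≤ L ^ C₁ * (L * S.card) ^ (2 * h) * L ^ (C₁ + 1) := by gcongr
        _ = L ^ (C₁ + C₁ + 2 * h + 1) * (S.card : ℝ) ^ (2 * h) := by
            rw [mul_pow]
            ring
        _ ≤ Real.log ((x * ⌈L ^ C₁⌉₊ : ℕ) : ℝ) ^ (C₁ + C₁ + 2 * h + 1) * (S.card : ℝ) ^ (2 * h) := by
            rw [← hN]
            gcongr
        _ = _ := by push_cast; rfl) T (by
      intro n hn
      rw [hT, mem_filter] at hn
      obtain ⟨-, hnB, hn1⟩ := hn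
      obtain ⟨a1, a2, a3, a4⟩ := hBm n.1 hnB
      have hpos : (0 : ℝ) < ((F n.1 : ℤ) : ℝ) := by
        refine lt_of_lt_of_le ?_ a2
        have h1 : (1 : ℝ) < (n.1 : ℝ) := by exact_mod_cast hn1
        have h2 := Real.log_pos h1
        positivity
      have hpos' : 0 < F n.1 := by exact_mod_cast hpos
      refine ⟨hpos', a3, ?_⟩
      rw [hP]
      intro h5
      apply a4
      have e : (F n.1 / 2).toNat = (F n.1).toNat / 2 := by omega
      rw [e]
      exact h5)
    rw [hfc, pow_one] at key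
    refine key.trans ?_
    have hlogN : 0 < Real.log N := by linarith
    rw [div_le_iff₀ hlogN]
    calc (S.card : ℝ) ≤ x := hSc
      _ ≤ δ / 4 * x * L := by
          have h3 : x * 4 ≤ x * (δ * L) := mul_le_mul_of_nonneg_left hLδ hx0.le
          linarith
      _ ≤ δ / 4 * x * Real.log N := mul_le_mul_of_nonneg_left hLN (by positivity)
  have h9 : 0 < δ * x := by positivity
  linarith


theorem general (D : ℕ → ℤ) (c u w : ℤ) (hD : Leibniz D c) (hc : c ≠ 0) (C W : ℕ) (ε : ℝ) (hε : 0 < ε) :
    AlmostAll (fun m => (m : ℝ) / Real.log m ^ C ≤ ((u * m + D m + w : ℤ) : ℝ) → Even (u * m + D m + w) →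
      Formula ε W ((u * m + D m + w) / 2).toNat) :=
  gold_of_fam (Pool.Agent.Helper85.AE.fam_leib ⟨hD.mul, hD.growth, hD.prime⟩ hc u w) C W ε hε

/-- sums over the prime factors of a product -/
lemma mul_rule (w : ℕ → ℕ → ℕ) {m n : ℕ} (hm : m ≠ 0) (hn : n ≠ 0) (h : Nat.Coprime m n)
    (hw1 : ∀ p ∈ m.primeFactors, w (m * n) p = w m p) (hw2 : ∀ p ∈ n.primeFactors, w (m * n) p = w n p) :
    ∑ p ∈ (m * n).primeFactors, w (m * n) p * (m * n / p) =
      m * (∑ p ∈ n.primeFactors, w n p * (n / p)) + n * ∑ p ∈ m.primeFactors, w m p * (m / p) := by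
  rw [h.primeFactors_mul, sum_union h.disjoint_primeFactors, add_comm, mul_sum, mul_sum]
  congr 1
  · apply sum_congr rfl
    intro p hp
    have hd := Nat.dvd_of_mem_primeFactors hp
    rw [hw2 p hp, Nat.mul_div_assoc _ hd]
    ring
  · apply sum_congr rfl
    intro p hp
    have hd := Nat.dvd_of_mem_primeFactors hp
    rw [hw1 p hp, mul_comm m n, Nat.mul_div_assoc _ hd]
    ring

lemma deriv_mul {m n : ℕ} (h : Nat.Coprime m n) : deriv (m * n) = m * deriv n + n * deriv m := by
  rcases Nat.eq_zero_or_pos m with rfl | hm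
  · rw [Nat.coprime_zero_left] at h
    subst h
    simp [deriv]
  rcases Nat.eq_zero_or_pos n with rfl | hn
  · rw [Nat.coprime_zero_right] at h
    subst h
    simp [deriv]
  unfold deriv
  apply mul_rule (fun a p => a.factorization p) hm.ne' hn.ne' h
  · intro p hp
    exact Nat.factorization_eq_of_coprime_left h (Nat.mem_primeFactors_iff_mem_primeFactorsList.1 hp)
  · intro p hp
    exact Nat.factorization_eq_of_coprime_right h (Nat.mem_primeFactors_iff_mem_primeFactorsList.1 hp)

lemma cofactors_mul {m n : ℕ} (h : Nat.Coprime m n) : cofactors (m * n) = m * cofactors n + n * cofactors m := by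
  rcases Nat.eq_zero_or_pos m with rfl | hm
  · rw [Nat.coprime_zero_left] at h
    subst h
    simp [cofactors]
  rcases Nat.eq_zero_or_pos n with rfl | hn
  · rw [Nat.coprime_zero_right] at h
    subst h
    simp [cofactors]
  have := mul_rule (fun _ _ => 1) hm.ne' hn.ne' h (fun _ _ => rfl) (fun _ _ => rfl)
  simpa only [one_mul, cofactors] using this

lemma deriv_prime {p : ℕ} (hp : p.Prime) : deriv p = 1 := by
  unfold deriv
  rw [hp.primeFactors, sum_singleton, hp.factorization_self, Nat.div_self hp.pos]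

lemma cofactors_prime {p : ℕ} (hp : p.Prime) : cofactors p = 1 := by
  unfold cofactors
  rw [hp.primeFactors, sum_singleton, Nat.div_self hp.pos]

lemma cofactors_le (m : ℕ) : cofactors m ≤ deriv m := by
  unfold cofactors deriv
  apply sum_le_sum
  intro p hp
  have h1 : 1 ≤ m.factorization p := by
    have := (Nat.support_factorization m).symm ▸ hp
    exact Nat.one_le_iff_ne_zero.2 (Finsupp.mem_support_iff.1 this)
  exact Nat.le_mul_of_pos_left _ h1

lemma deriv_le (m : ℕ) : (deriv m : ℝ) ≤ m * Real.log m := by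
  rw [Real.log_nat_eq_sum_factorization, Finsupp.sum, Nat.support_factorization, mul_sum]
  unfold deriv
  push_cast
  apply sum_le_sum
  intro p hp
  have hpp := Nat.prime_of_mem_primeFactors hp
  have hp2 : (2 : ℝ) ≤ p := by exact_mod_cast hpp.two_le
  have h1 : ((m / p : ℕ) : ℝ) ≤ m / p := Nat.cast_div_le
  have h2 : (m : ℝ) / p ≤ m * Real.log p := by
    rw [div_eq_mul_inv]
    apply mul_le_mul_of_nonneg_left _ (Nat.cast_nonneg _)
    have h3 : (p : ℝ)⁻¹ ≤ 1 / 2 := by
      rw [inv_eq_one_div]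
      exact one_div_le_one_div_of_le (by norm_num) hp2
    have h4 : Real.log 2 ≤ Real.log p := Real.log_le_log (by norm_num) hp2
    linarith [Real.log_two_gt_d9]
  calc (m.factorization p : ℝ) * ((m / p : ℕ) : ℝ) ≤ m.factorization p * (m * Real.log p) :=
        mul_le_mul_of_nonneg_left (h1.trans h2) (Nat.cast_nonneg _)
    _ = _ := by ring

theorem leibniz_deriv : Leibniz (fun m => (deriv m : ℤ)) 1 := by
  refine ⟨fun m n h => ?_, ⟨1, fun m hm => ?_⟩, ⟨0, fun p _ hp => by rw [deriv_prime hp, Nat.cast_one]⟩⟩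
  · rw [deriv_mul h]
    push_cast
    ring
  · have h1 := deriv_le m
    push_cast
    rw [pow_one, Nat.abs_cast]
    have : (0 : ℝ) ≤ m := Nat.cast_nonneg _
    linarith

theorem leibniz_cofactors : Leibniz (fun m => (cofactors m : ℤ)) 1 := by
  refine ⟨fun m n h => ?_, ⟨1, fun m hm => ?_⟩, ⟨0, fun p _ hp => by rw [cofactors_prime hp, Nat.cast_one]⟩⟩
  · rw [cofactors_mul h]
    push_cast
    ring
  · have h1 := deriv_le m
    have h2 : (cofactors m : ℝ) ≤ deriv m := by exact_mod_cast cofactors_le m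
    push_cast
    rw [pow_one, Nat.abs_cast]
    have : (0 : ℝ) ≤ m := Nat.cast_nonneg _
    linarith

/-- the derivative of a multiple of `4` is even -/
theorem even_of_four {m : ℕ} (h : 4 ∣ m) : Even (deriv m) := by
  rw [even_iff_two_dvd]
  unfold deriv
  apply dvd_sum
  intro p hp
  apply Dvd.dvd.mul_left
  obtain ⟨k, hk⟩ := h
  have hpp := Nat.prime_of_mem_primeFactors hp
  have hd := Nat.dvd_of_mem_primeFactors hp
  rcases hpp.eq_two_or_odd' with rfl | hodd
  · exact ⟨k, by omega⟩
  · have hc : Nat.Coprime p 4 := by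
      have : Nat.Coprime p 2 := (Nat.coprime_two_right).2 hodd
      exact Nat.Coprime.pow_right 2 this
    have h1 : p ∣ k := by
      rw [hk] at hd
      exact hc.dvd_of_dvd_mul_left hd
    obtain ⟨t, ht⟩ := h1
    refine ⟨2 * t, ?_⟩
    rw [hk, ht, show 4 * (p * t) = p * (2 * (2 * t)) by ring, Nat.mul_div_cancel_left _ hpp.pos]

/-- the derivative of an odd `m` is even if and only if the number of the prime factors of `m` is even -/
theorem even_of_odd {m : ℕ} (h : Odd m) : Even (deriv m) ↔ Even (ArithmeticFunction.cardFactors m) := by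
  have hm0 : m ≠ 0 := by
    rintro rfl
    exact absurd h (by decide)
  rw [ArithmeticFunction.cardFactors_eq_sum_factorization, Finsupp.sum, Nat.support_factorization]
  unfold deriv
  rw [Finset.even_sum_iff_even_card_odd, Finset.even_sum_iff_even_card_odd]
  have e : m.primeFactors.filter (fun p => Odd (m.factorization p * (m / p))) =
      m.primeFactors.filter (fun p => Odd (m.factorization p)) := by
    apply filter_congr
    intro p hp
    rw [Nat.odd_mul]
    have hd := Nat.dvd_of_mem_primeFactors hp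
    have : Odd (m / p) := by
      have h2 : Odd (m / p * p) := by rw [Nat.div_mul_cancel hd]; exact h
      exact (Nat.odd_mul.1 h2).1
    exact ⟨fun a => a.1, fun a => ⟨a, this⟩⟩
  rw [e]

/-- the derivative is not small for almost all integers -/
theorem large : AlmostAll (fun m => (m : ℝ) / Real.log m ^ 1 ≤ deriv m ∧ 4 ≤ deriv m) := by
  refine (almostAll_iff _).2 fun ε hε => ?_
  obtain ⟨z, n0, hz⟩ := Pool.Agent.Helper85.AE.few_rough (ε / 2) (by positivity)
  obtain ⟨n3, hn3⟩ := Pool.Agent.Helper85.AE.ev_log (z + 1)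
  obtain ⟨n4, hn4⟩ := exists_nat_gt (2 * (n3 + 4 * z + 4 : ℝ) / ε)
  refine ⟨n0 + n4, fun N hN => ?_⟩
  have g3 := hz N (by omega)
  have g5 : (n3 + 4 * z + 4 : ℝ) ≤ ε / 2 * N := by
    have h5 : 2 * (n3 + 4 * z + 4 : ℝ) / ε ≤ N := hn4.le.trans (by exact_mod_cast (by omega : n4 ≤ N))
    rw [div_le_iff₀ hε] at h5
    linarith
  classical
  have hsub : (Icc 1 N).filter (fun m : ℕ => ¬ ((m : ℝ) / Real.log m ^ 1 ≤ deriv m ∧ 4 ≤ deriv m)) ⊆
      (Icc 1 N).filter (fun m => ∀ p : ℕ, p.Prime → p ≤ z → ¬ p ∣ m) ∪ Icc 1 (n3 + 4 * z + 4) := by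
    intro m hm
    rw [mem_filter] at hm
    obtain ⟨hm1, hm2⟩ := hm
    have hm3 := mem_Icc.1 hm1
    rw [mem_union, mem_filter, mem_Icc (a := 1) (b := n3 + 4 * z + 4)]
    by_contra hcon
    push Not at hcon
    obtain ⟨c1, c2⟩ := hcon
    obtain ⟨p, hp, hpz, hpm⟩ := c1 hm1
    have c2' := c2 hm3.1
    have hlogm : (z : ℝ) + 1 ≤ Real.log m := hn3 m (by omega)
    have hm0 : (0 : ℝ) < m := by exact_mod_cast (by omega : 0 < m)
    have hz0 : 0 < z := lt_of_lt_of_le hp.pos hpz
    have hz1 : (0 : ℝ) < z := by exact_mod_cast hz0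
    have hge : m / p ≤ deriv m := by
      refine le_trans ?_ (cofactors_le m)
      unfold cofactors
      exact single_le_sum (f := fun p => m / p) (fun _ _ => Nat.zero_le _) (Nat.mem_primeFactors.2 ⟨hp, hpm, by omega⟩)
    have hge2 : m / z ≤ deriv m := (Nat.div_le_div_left hpz hp.pos).trans hge
    apply hm2
    constructor
    · have h1 : (m : ℝ) / p ≤ deriv m := by
        obtain ⟨t, ht⟩ := hpm
        have hp0 : (0 : ℝ) < p := by exact_mod_cast hp.pos
        have h2 : m / p = t := by rw [ht]; exact Nat.mul_div_cancel_left _ hp.pos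
        rw [h2] at hge
        have h3 : (m : ℝ) / p = t := by
          rw [ht]
          push_cast
          field_simp
        rw [h3]
        exact_mod_cast hge
      refine le_trans ?_ h1
      rw [pow_one]
      apply div_le_div_of_nonneg_left hm0.le (by exact_mod_cast hp.pos)
      have : (p : ℝ) ≤ z := by exact_mod_cast hpz
      linarith
    · refine le_trans ?_ hge2
      rw [Nat.le_div_iff_mul_le hz0]
      omega
  have hc := (card_le_card hsub).trans (card_union_le _ _)
  rw [Nat.card_Icc, Nat.add_sub_cancel] at hc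
  have hc' : ((((Icc 1 N).filter (fun m : ℕ => ¬ ((m : ℝ) / Real.log m ^ 1 ≤ deriv m ∧ 4 ≤ deriv m))).card : ℕ) : ℝ) ≤
      ((Icc 1 N).filter (fun m => ∀ p : ℕ, p.Prime → p ≤ z → ¬ p ∣ m)).card + (n3 + 4 * z + 4) := by exact_mod_cast hc
  have hfin : ((((Icc 1 N).filter (fun m : ℕ => ¬ ((m : ℝ) / Real.log m ^ 1 ≤ deriv m ∧ 4 ≤ deriv m))).card : ℕ) : ℝ) ≤ ε * N := by
    linarith
  convert hfin

theorem derivs (ε : ℝ) (hε : 0 < ε) (W : ℕ) : AlmostAll (fun m => Even (deriv m) → 4 ≤ deriv m ∧ Formula ε W (deriv m / 2)) := by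
  have h1 := general (fun m => (deriv m : ℤ)) 1 0 0 leibniz_deriv one_ne_zero 1 W ε hε
  refine almostAll_and h1 large 0 ?_
  rintro m - g1 ⟨g2, g3⟩ he
  refine ⟨g3, ?_⟩
  have e1 : (0 : ℤ) * m + (deriv m : ℤ) + 0 = (deriv m : ℤ) := by ring
  rw [e1] at g1
  have h5 := g1 (by
    push_cast
    exact g2) (by exact_mod_cast he)
  have e6 : ((deriv m : ℤ) / 2).toNat = deriv m / 2 := by omega
  rwa [e6] at h5

theorem sums : AlmostAll (fun m => Even (deriv m) → SumOfTwo (deriv m)) := by
  have h := derivs (1 / 2) (by norm_num) 0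
  refine almostAll_and h h 0 (fun m _ h1 _ he => ?_)
  obtain ⟨a1, a2⟩ := h1 he
  obtain ⟨p, q, hp, hq, hpq, hs⟩ := sum_of a1 he a2
  refine ⟨p, q, hp, hq, hpq, hs, ?_⟩
  rw [deriv_mul ((Nat.coprime_primes hp hq).2 hpq), deriv_prime hp, deriv_prime hq, mul_one, mul_one]
  exact hs

/-- **Goldbach's conjecture for almost all arithmetic derivatives.** (1) Let `D` be a function of moderate growth with
`D(m n) = m D(n) + n D(m)` for coprime `m`, `n` and `D p = c`, `c ≠ 0`, for all large primes `p`, let `u`, `w` be integers,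
and `F(m) = u m + D(m) + w`. For almost all `m` for which `F(m)` is even and at least `m / (log m)^C` the formula of Hardy and
Littlewood holds for the number of the representations of `F(m)` as a sum of two distinct primes, also in windows. (2) The
arithmetic derivative and `∑_{p ∣ m} m / p` are such functions. (3) The formula holds for almost all `m` with an even
derivative `m'`, without a condition on the size. (4) For almost all `m` with an even derivative there are primes `p ≠ q`
with `m' = p + q = (p q)'`. (5) `m'` is even if `4` divides `m`, and if `m` is odd with an even number of prime factors. -/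
theorem result :
    (∀ (D : ℕ → ℤ) (c u w : ℤ), Leibniz D c → c ≠ 0 → ∀ (C W : ℕ) (ε : ℝ), 0 < ε →
      AlmostAll (fun m => (m : ℝ) / Real.log m ^ C ≤ ((u * m + D m + w : ℤ) : ℝ) → Even (u * m + D m + w) →
        Formula ε W ((u * m + D m + w) / 2).toNat)) ∧
    (Leibniz (fun m => (deriv m : ℤ)) 1 ∧ Leibniz (fun m => (cofactors m : ℤ)) 1) ∧
    (∀ ε : ℝ, 0 < ε → ∀ W : ℕ, AlmostAll (fun m => Even (deriv m) → Formula ε W (deriv m / 2))) ∧
    AlmostAll (fun m => Even (deriv m) → SumOfTwo (deriv m)) ∧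
    ((∀ m : ℕ, 4 ∣ m → Even (deriv m)) ∧
      ∀ m : ℕ, Odd m → (Even (deriv m) ↔ Even (ArithmeticFunction.cardFactors m))) := by
  refine ⟨fun D c u w hD hc C W ε hε => general D c u w hD hc C W ε hε, ⟨leibniz_deriv, leibniz_cofactors⟩,
    fun ε hε W => ?_, sums, fun m hm => even_of_four hm, fun m hm => even_of_odd hm⟩
  have h := derivs ε hε W
  exact almostAll_and h h 0 (fun m _ h1 _ he => (h1 he).2)

end Pool.Agent.Results.MP_7b7e48_nt.ArithmeticDerivatives
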