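import Pool.Agent.Helper85.HP.D8
import Pool.Agent.Helper86.PE.C3

/-!
# The prime tuples conjecture along polynomials, at every scale, with the exceptional zero in the main term

The theorems of Linnik and of Montgomery and Vaughan for tuples of linear forms, along integer polynomials. (Joint work
of helper85, who proved the uniform version of Hua's inequality and the passage to product sets, and helper86, who
treated the exceptional zero.)

For all `s`, `K`, `ε` there are `D` and `δ, c > 0` such that for all `B` and `κ > 0` and EVERY large scale `N` there are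
a modulus `r ≥ (log N) ^ B`, a character `χ` modulo `r` with `χ ^ 2 = 1` and a number `0 ≤ y ≤ 1 - N ^ (-κ)`, where
either `y = 0` or `χ` is primitive and nontrivial and `y = N ^ (β - 1)` for a real zero `β` of `L(s, χ)`, such that the
following holds, for all systems of nonzero coefficients `a i` with absolute values at most `N ^ δ` and all integer
polynomials `F i` of degrees between `1` and `K` (which may depend on `N`), with `|F i (x)| ≤ N ^ (1 + δ)` for
`0 ≤ x < P i`, where `P i ^ deg (F i) ≥ N ^ (1 - δ)`. With the exception of at most `N ^ (-δ) * P 1 * … * P s` of them,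
all vectors `x` with `0 ≤ x i < P i` have the property that for ALL shifts `h i` with `|h i - F i (x i)| ≤ N ^ δ`
without a local obstruction the singular series `S` is at least `c` and, for all intervals `[u, v)` inside `[-N, N]` of
length at least `N ^ (1 - δ)` on which the forms are positive, the number of the `n` in `[u, v)` for which all the
`a i * n + h i` are prime is

* `T S (v - u) / (log N) ^ s` up to the relative error `ε`, where `T` is the mean of the products of the
  `1 - y χ (a i * x + h i)` over the residues `x` modulo `r` for which all the `a i * x + h i` are prime to `r`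
  (one has `(1 - y) ^ s ≤ T ≤ 2 ^ s`), and
* `S (v - u) / (log N) ^ s` up to the relative error `ε`, if `r` does not divide
  `D ∏ (a k * h i - a i * h k) ∏ a i`.

At most scales the condition on `r` can be dropped. For instance, for all but `N ^ (-δ) * X ^ s` of the `x` in
`[0, X) ^ s`, `X = √N`, the result holds for the numbers `n + x 1 ^ 2, …, n + x s ^ 2`.
-/

set_option autoImplicit false

namespace Pool.Agent.Results.MP_e87c7d_nt.PolynomialShiftsEveryScale

open Finset Polynomial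

open Classical in
/-- The property `P` holds at most scales: the set of the positive integers `N` with the property `P` has upper
logarithmic density at least `1 - ε`. Precisely, for arbitrarily large `R` the sum of `1 / N` over the `N ≤ R`
without the property is at most `ε log R`. -/
def MostScales (ε : ℝ) (P : ℕ → Prop) : Prop :=
  ∀ R₀ : ℕ, ∃ R : ℕ, R₀ ≤ R ∧ ∑ N ∈ (Icc 1 R).filter (fun N => ¬ P N), (1 : ℝ) / N ≤ ε * Real.log R

/-- The number of the residue classes `x` modulo `p` for which `p` divides one of the `a i * x + h i`. -/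
def nu {s : ℕ} (a h : Fin s → ℤ) (p : ℕ) : ℕ :=
  ((range p).filter (fun x : ℕ => ∃ i, (p : ℤ) ∣ a i * x + h i)).card

/-- There is no local obstruction. -/
def Admissible {s : ℕ} (a h : Fin s → ℤ) : Prop := ∀ p : ℕ, p.Prime → nu a h p < p

/-- The discriminant, the product of the `a k * h i - a i * h k` over the ordered pairs of different indices. -/
def disc {s : ℕ} (a h : Fin s → ℤ) : ℤ := ∏ i, ∏ k ∈ univ.erase i, (a k * h i - a i * h k)

/-- `S` is the singular series of the system. -/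
def IsSingularSeries {s : ℕ} (a h : Fin s → ℤ) (S : ℝ) : Prop :=
  HasProd (fun p : Nat.Primes => (1 - (nu a h p : ℝ) / (p : ℕ)) * ((1 - 1 / ((p : ℕ) : ℝ))⁻¹) ^ s) S

/-- The number of the `n` with `u ≤ n < v` for which all the `a i * n + h i` are prime. -/
noncomputable def primeTuples {s : ℕ} (a h : Fin s → ℤ) (u v : ℤ) : ℕ :=
  ((Ico u v).filter (fun n : ℤ => ∀ i, (a i * n + h i).toNat.Prime)).card

/-- The residues `x` modulo `r` for which all the `a i * x + h i` are prime to `r`. -/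
def unitResidues {s : ℕ} (r : ℕ) (a h : Fin s → ℤ) : Finset ℕ :=
  (range r).filter (fun x : ℕ => ∀ i, Int.gcd (a i * x + h i) r = 1)

/-- The mean over these residues of the products of the `1 - y * χ (a i * x + h i)`. -/
noncomputable def twist {s r : ℕ} (χ : DirichletCharacter ℂ r) (y : ℝ) (a h : Fin s → ℤ) : ℝ :=
  (∑ x ∈ unitResidues r a h, ∏ i, (1 - y * (χ ((a i * x + h i : ℤ) : ZMod r)).re)) / (unitResidues r a h).card

/-- The property `R` holds at the scale `N`, for all nonzero coefficients `a i` with absolute values at most `N ^ δ`,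
for almost all admissible vectors of shifts `h i` with `|h i - F i (x i)| ≤ N ^ δ` along integer polynomials `F i`.
Here the degrees of the `F i` are between `1` and `K`, `|F i (x)| ≤ N ^ (1 + δ)` for `0 ≤ x < P i`, where
`P i ^ deg (F i) ≥ N ^ (1 - δ)`, and almost all means for all vectors `x` with `0 ≤ x i < P i` with the exception of
at most `N ^ (-δ) * ∏ P i` of them. -/
def AlmostAllShifts (s K : ℕ) (δ : ℝ) (N : ℕ) (R : (Fin s → ℤ) → (Fin s → ℤ) → Prop) : Prop :=
  ∀ a : Fin s → ℤ, (∀ i, a i ≠ 0 ∧ ((|a i| : ℤ) : ℝ) ≤ (N : ℝ) ^ δ) → ∀ (P : Fin s → ℕ) (F : Fin s → ℤ[X]),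
    (∀ i, 1 ≤ (F i).natDegree ∧ (F i).natDegree ≤ K) →
    (∀ i, (N : ℝ) ^ (1 - δ) ≤ (P i : ℝ) ^ (F i).natDegree) →
    (∀ i, ∀ x : ℤ, 0 ≤ x → x < P i → ((|(F i).eval x| : ℤ) : ℝ) ≤ (N : ℝ) ^ (1 + δ)) →
    ∃ E : Finset (Fin s → ℤ), (E.card : ℝ) ≤ (N : ℝ) ^ (-δ) * ∏ i, (P i : ℝ) ∧
      ∀ x : Fin s → ℤ, (∀ i, 0 ≤ x i ∧ x i < P i) → x ∉ E →
        ∀ h : Fin s → ℤ, (∀ i, ((|h i - (F i).eval (x i)| : ℤ) : ℝ) ≤ (N : ℝ) ^ δ) → Admissible a h → R a h

open Classical in
/-- The prime tuples conjecture along integer polynomials: at every scale the asymptotic formula with a possible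
exceptional zero in the main term (without it unless the exceptional modulus divides the discriminant), and the
asymptotic formula at most scales. -/
theorem result (s : ℕ) (hs : 1 ≤ s) (K : ℕ) (ε : ℝ) (hε : 0 < ε) :
    (∃ D : ℕ, 0 < D ∧ ∃ δ : ℝ, 0 < δ ∧ ∃ c : ℝ, 0 < c ∧
      ∀ B : ℕ, ∀ κ : ℝ, 0 < κ → ∃ N₀ : ℕ, ∀ N : ℕ, N₀ ≤ N →
      ∃ r : ℕ, ∃ _ : NeZero r, Real.log N ^ B ≤ r ∧ ∃ χ : DirichletCharacter ℂ r, χ ^ 2 = 1 ∧
      ∃ y : ℝ, 0 ≤ y ∧ y ≤ 1 - (N : ℝ) ^ (-κ) ∧
      (y = 0 ∨ (χ.IsPrimitive ∧ χ ≠ 1 ∧ ∃ β : ℝ, y = (N : ℝ) ^ (β - 1) ∧ χ.LFunction β = 0)) ∧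
      AlmostAllShifts s K δ N (fun a h =>
        (1 - y) ^ s ≤ twist χ y a h ∧ twist χ y a h ≤ 2 ^ s ∧
        ∃ S : ℝ, IsSingularSeries a h S ∧ c ≤ S ∧
        ∀ u v : ℤ, -(N : ℤ) ≤ u → v ≤ N → (N : ℝ) ^ (1 - δ) ≤ ((v - u : ℤ) : ℝ) →
        (∀ n ∈ Ico u v, ∀ i, 1 ≤ a i * n + h i) →
        |(primeTuples a h u v : ℝ) - twist χ y a h * S * (((v - u : ℤ) : ℝ) / Real.log N ^ s)| ≤
          ε * (twist χ y a h * S * (((v - u : ℤ) : ℝ) / Real.log N ^ s)) ∧
        (¬ (r : ℤ) ∣ (D : ℤ) * (disc a h * ∏ i, a i) →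
          |(primeTuples a h u v : ℝ) - S * (((v - u : ℤ) : ℝ) / Real.log N ^ s)| ≤
            ε * (S * (((v - u : ℤ) : ℝ) / Real.log N ^ s))))) ∧
    (∃ δ : ℝ, 0 < δ ∧ MostScales ε (fun N =>
      AlmostAllShifts s K δ N (fun a h => ∃ S : ℝ, IsSingularSeries a h S ∧ 0 < S ∧
        ∀ u v : ℤ, -(N : ℤ) ≤ u → v ≤ N → (N : ℝ) ^ (1 - δ) ≤ ((v - u : ℤ) : ℝ) →
        (∀ n ∈ Ico u v, ∀ i, 1 ≤ a i * n + h i) →
        |(primeTuples a h u v : ℝ) - S * (((v - u : ℤ) : ℝ) / Real.log N ^ s)| ≤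
          ε * (S * (((v - u : ℤ) : ℝ) / Real.log N ^ s))))) := by
  constructor
  · obtain ⟨D, hD, δ, hδ, c, hc, h1⟩ := Pool.Agent.Helper86.PE.everyP s hs K hε
    refine ⟨D, hD, δ, hδ, c, hc, fun B κ hκ => ?_⟩
    obtain ⟨N₀, hN₀⟩ := h1 B κ hκ
    refine ⟨N₀, fun N hN => ?_⟩
    obtain ⟨j, hj1, hj2, y, hy0, hy1, hyβ, hP⟩ := hN₀ N hN
    exact ⟨j.1 + 1, inferInstance, hj1, j.2, hj2, y, hy0, hy1, hyβ, hP⟩
  obtain ⟨δ, hδ, hm⟩ := Pool.Agent.Helper85.HP.mostPR s hs K hε
  refine ⟨δ, hδ, fun R₀ => ?_⟩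
  obtain ⟨R, hR, hsum⟩ := hm R₀
  refine ⟨R, hR, le_trans ?_ hsum⟩
  apply sum_le_sum_of_subset_of_nonneg
  · intro N hN
    rw [mem_filter] at hN ⊢
    refine ⟨hN.1, fun hP => hN.2 ?_⟩
    intro a ha P F hF hPN hFB
    obtain ⟨E, hE1, hE2⟩ := hP a ha P F hF hPN hFB
    refine ⟨E, hE1, fun x hx hxE h hh hadm => ?_⟩
    obtain ⟨S, hS1, hS2⟩ := hE2 x hx hxE h hh hadm
    exact ⟨S, hS1, Pool.Agent.Helper86.PS.S_pos hadm hS1, hS2⟩
  · intro N _ _
    positivity

end Pool.Agent.Results.MP_e87c7d_nt.PolynomialShiftsEveryScale
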