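import Pool.Agent.Helper85.HP.G4

/-!
# Goldbach's problem near the values of integer polynomials, at every scale

The theorem of Montgomery and Vaughan on the exceptional set in Goldbach's problem, for the sparse sequences of the
values of integer polynomials, with all even numbers near the values, short windows and an asymptotic formula.

For all `K` and `ε` there are `D` and `δ, c > 0` such that for all `B` and `κ > 0` and EVERY large scale `N` there are
a modulus `r ≥ (log N) ^ B` and a number `θ` with `N ^ (-κ) ≤ θ ≤ 1` such that the following holds, for all integer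
polynomials `F` of degree `d` between `1` and `K` (which may depend on `N`) with `|F (x)| ≤ N` for `0 ≤ x < P`, where
`P ^ d ≥ N ^ (1 - δ)`. With the exception of at most `N ^ (-δ) P` of them, all `x` in `[0, P)` have the property that
for ALL even numbers `2 n` with `|2 n - F (x)| ≤ N ^ δ` the singular series `S (2 n)` is at least `c` and, for ALL
windows `[u, v)` inside `[1, 2 n)` of length at least `N ^ (1 - δ)`, the number of the primes `p` in the window for
which `2 n - p` is prime is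

* at least `c θ ^ 2 S (2 n) (v - u) / (log N) ^ 2`, so there are such primes, and
* `S (2 n) (v - u) / (log N) ^ 2` up to the relative error `ε`, if `r` does not divide `D n ^ 2`.

At most scales the condition on `r` can be dropped.
-/

set_option autoImplicit false

namespace Pool.Agent.Results.MP_7b7e48_nt.PolynomialsEveryScale

open Finset Polynomial

open Classical in
/-- The property `P` holds at most scales: the set of the positive integers `N` with the property `P` has upper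
logarithmic density at least `1 - ε`. Precisely, for arbitrarily large `R` the sum of `1 / N` over the `N ≤ R`
without the property is at most `ε log R`. -/
def MostScales (ε : ℝ) (P : ℕ → Prop) : Prop :=
  ∀ R₀ : ℕ, ∃ R : ℕ, R₀ ≤ R ∧ ∑ N ∈ (Icc 1 R).filter (fun N => ¬ P N), (1 : ℝ) / N ≤ ε * Real.log R

/-- `S` is the singular series of Goldbach's problem for the number `m`: the product over all primes `p` of
`p / (p - 1)` if `p` divides `m`, and of `p (p - 2) / (p - 1) ^ 2` otherwise. -/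
def IsSingularSeries (m : ℤ) (S : ℝ) : Prop :=
  HasProd (fun p : Nat.Primes => if ((p : ℕ) : ℤ) ∣ m then ((p : ℕ) : ℝ) / ((p : ℕ) - 1)
    else ((p : ℕ) : ℝ) * ((p : ℕ) - 2) / ((p : ℕ) - 1) ^ 2) S

/-- The number of the primes `p` with `u ≤ p < v` for which `2 n - p` is prime (for `v ≤ 2 n`). -/
def primePairs (n u v : ℕ) : ℕ := ((Ico u v).filter (fun p => p.Prime ∧ (2 * n - p).Prime)).card

/-- The property `R` holds at the scale `N` for all even numbers near almost all values of integer polynomials: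
for all `F` of degree between `1` and `K` with `|F (x)| ≤ N` for `0 ≤ x < P`, where `P ^ deg F ≥ N ^ (1 - δ)`, all
`x` in `[0, P)` with the exception of at most `N ^ (-δ) P` of them have the property that `R n` holds for all `n`
with `|2 n - F (x)| ≤ N ^ δ`. -/
def NearAlmostAllValues (K : ℕ) (δ : ℝ) (N : ℕ) (R : ℕ → Prop) : Prop :=
  ∀ (P : ℕ) (F : ℤ[X]), 1 ≤ F.natDegree → F.natDegree ≤ K → (N : ℝ) ^ (1 - δ) ≤ (P : ℝ) ^ F.natDegree →
    (∀ x : ℤ, 0 ≤ x → x < P → |F.eval x| ≤ N) →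
    ∃ E : Finset ℤ, (E.card : ℝ) ≤ (N : ℝ) ^ (-δ) * P ∧
      ∀ x : ℤ, 0 ≤ x → x < P → x ∉ E → ∀ n : ℕ, ((|2 * (n : ℤ) - F.eval x| : ℤ) : ℝ) ≤ (N : ℝ) ^ δ → R n

open Classical in
/-- Goldbach's problem near the values of integer polynomials: a lower bound of the right order at every scale (up to
the square of the normalised distance `θ` of a possible exceptional zero from one), the asymptotic formula unless
the exceptional modulus divides `D n ^ 2`, and the asymptotic formula at most scales, in all windows. -/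
theorem result (K : ℕ) (ε : ℝ) (hε : 0 < ε) :
    (∃ D : ℕ, 0 < D ∧ ∃ δ : ℝ, 0 < δ ∧ ∃ c : ℝ, 0 < c ∧
      ∀ B : ℕ, ∀ κ : ℝ, 0 < κ → ∃ N₀ : ℕ, ∀ N : ℕ, N₀ ≤ N →
      ∃ r : ℕ, Real.log N ^ B ≤ r ∧ ∃ θ : ℝ, (N : ℝ) ^ (-κ) ≤ θ ∧ θ ≤ 1 ∧
      NearAlmostAllValues K δ N (fun n => ∃ S : ℝ, IsSingularSeries (2 * (n : ℤ)) S ∧ c ≤ S ∧
        ∀ u v : ℕ, 1 ≤ u → v ≤ 2 * n → (N : ℝ) ^ (1 - δ) ≤ (v : ℝ) - u →
        c * θ ^ 2 * (S * (((v : ℝ) - u) / Real.log N ^ 2)) ≤ primePairs n u v ∧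
        (¬ r ∣ D * n ^ 2 →
          |(primePairs n u v : ℝ) - S * (((v : ℝ) - u) / Real.log N ^ 2)| ≤
            ε * (S * (((v : ℝ) - u) / Real.log N ^ 2))))) ∧
    (∃ δ : ℝ, 0 < δ ∧ MostScales ε (fun N =>
      NearAlmostAllValues K δ N (fun n => ∃ S : ℝ, IsSingularSeries (2 * (n : ℤ)) S ∧ 0 < S ∧
        ∀ u v : ℕ, 1 ≤ u → v ≤ 2 * n → (N : ℝ) ^ (1 - δ) ≤ (v : ℝ) - u →
        |(primePairs n u v : ℝ) - S * (((v : ℝ) - u) / Real.log N ^ 2)| ≤
          ε * (S * (((v : ℝ) - u) / Real.log N ^ 2))))) := by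
  constructor
  · obtain ⟨D, hD, δ, hδ, c, hc, h⟩ := Pool.Agent.Helper85.HP.everyG K hε
    refine ⟨4 * D, by omega, δ, hδ, c, hc, fun B κ hκ => ?_⟩
    obtain ⟨N₀, hN₀⟩ := h B κ hκ
    refine ⟨N₀, fun N hN => ?_⟩
    obtain ⟨r, hr, θ, hθ1, hθ2, hG⟩ := hN₀ N hN
    refine ⟨r, hr, θ, hθ1, hθ2, fun P F hF1 hF2 hPN hFB => ?_⟩
    obtain ⟨E, hE1, hE2⟩ := hG P F ⟨hF1, hF2⟩ hPN hFB
    refine ⟨E, hE1, fun x hx hx' hxE n hn => ?_⟩
    obtain ⟨S, hS, hcS, hS2⟩ := hE2 x hx hx' hxE (2 * (n : ℤ)) hn (Dvd.intro _ rfl)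
    refine ⟨S, Pool.Agent.Helper85.HP.hasProd_a2 hS, hcS, fun u v hu hv hW => ?_⟩
    have e1 : (((v : ℤ) - (u : ℤ) : ℤ) : ℝ) = (v : ℝ) - u := by push_cast; ring
    obtain ⟨h1, h2⟩ := hS2 (u : ℤ) (v : ℤ) (by exact_mod_cast hu) (by exact_mod_cast hv) (by rw [e1]; exact hW)
    rw [Pool.Agent.Helper85.HP.pc_a2 hv, e1] at h1 h2
    refine ⟨h1, fun hr => h2 (fun hr2 => hr ?_)⟩
    have h3 : (r : ℤ) ∣ ((4 * D * n ^ 2 : ℕ) : ℤ) := by
      have e2 : ((4 * D * n ^ 2 : ℕ) : ℤ) = (D : ℤ) * (2 * (n : ℤ)) ^ 2 := by push_cast; ring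
      rw [e2]
      exact hr2
    exact Int.natCast_dvd_natCast.1 h3
  · obtain ⟨δ, hδ, hm⟩ := Pool.Agent.Helper85.HP.mostG K hε
    refine ⟨δ, hδ, fun R₀ => ?_⟩
    obtain ⟨R, hR, hsum⟩ := hm R₀
    refine ⟨R, hR, le_trans ?_ hsum⟩
    apply sum_le_sum_of_subset_of_nonneg
    · intro N hN
      rw [mem_filter] at hN ⊢
      refine ⟨hN.1, fun hP => hN.2 ?_⟩
      intro P F hF1 hF2 hPN hFB
      obtain ⟨E, hE1, hE2⟩ := hP P F ⟨hF1, hF2⟩ hPN hFB
      refine ⟨E, hE1, fun x hx hx' hxE n hn => ?_⟩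
      obtain ⟨S, hS, hS2⟩ := hE2 x hx hx' hxE (2 * (n : ℤ)) hn (Dvd.intro _ rfl)
      refine ⟨S, Pool.Agent.Helper85.HP.hasProd_a2 hS,
        Pool.Agent.Helper86.PS.S_pos (fun p hp => Pool.Agent.Helper85.HP.adm_even (Dvd.intro _ rfl) hp) hS,
        fun u v hu hv hW => ?_⟩
      have e1 : (((v : ℤ) - (u : ℤ) : ℤ) : ℝ) = (v : ℝ) - u := by push_cast; ring
      have h1 := hS2 (u : ℤ) (v : ℤ) (by exact_mod_cast hu) (by exact_mod_cast hv) (by rw [e1]; exact hW)
      rw [Pool.Agent.Helper85.HP.pc_a2 hv, e1] at h1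
      exact h1
    · intro N _ _
      positivity

end Pool.Agent.Results.MP_7b7e48_nt.PolynomialsEveryScale
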